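import Mathlib

/-!
# Degenerations of finite-dimensional commutative algebras: definitions

`T = LaurentSeries B = B((s))`.  `Degenerates B A` : the algebra `A` is the special fibre of a family
of algebras over `ℂ[[s]]` whose generic fibre is the constant algebra `B ⊗ ℂ((s))`.
`Fam B A` is the working form of the same data.
-/

set_option autoImplicit false

attribute [-instance] HahnSeries.powerSeriesAlgebra

namespace Pool.Agent.W_90188c_h48

/-- The algebra `A` is a degeneration of `B`: in the ring of Laurent series `B((s))` there is a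
`ℂ`-subalgebra `Λ` with `s Λ ⊆ Λ` and `s ^ N B[[s]] ⊆ Λ ⊆ s ^ (-N) B[[s]]` for some `N`, such that
`A` is isomorphic to `Λ / s Λ`. -/
def Degenerates (B A : Type) [CommRing B] [Algebra ℂ B] [CommRing A] [Algebra ℂ A] : Prop :=
  ∃ (Λ : Subalgebra ℂ (LaurentSeries B)) (N : ℤ) (π : Λ →ₐ[ℂ] A),
    (∀ x : LaurentSeries B, (∀ k < N, x.coeff k = 0) → x ∈ Λ) ∧
    (∀ x ∈ Λ, ∀ k < -N, x.coeff k = 0) ∧
    (∀ x ∈ Λ, HahnSeries.single 1 1 * x ∈ Λ) ∧
    Function.Surjective π ∧
    (∀ x : Λ, π x = 0 ↔ ∃ y ∈ Λ, (x : LaurentSeries B) = HahnSeries.single 1 1 * y)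

/-- The monomial `s ^ k` of `B((s))`. -/
noncomputable def sp (B : Type) [CommRing B] (k : ℤ) : LaurentSeries B := HahnSeries.single k 1

variable {B : Type} [CommRing B]

theorem coeff_sp_mul (k l : ℤ) (x : LaurentSeries B) :
    (sp B k * x).coeff l = x.coeff (l - k) := by
  rw [sp, HahnSeries.coeff_single_mul, one_mul]

theorem sp_mul_sp (k l : ℤ) : sp B k * sp B l = sp B (k + l) := by
  rw [sp, sp, HahnSeries.single_mul_single, one_mul, sp]

theorem sp_zero : sp B 0 = 1 := rfl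

theorem sp_mul_sp_mul (k l : ℤ) (x : LaurentSeries B) :
    sp B k * (sp B l * x) = sp B (k + l) * x := by
  rw [← mul_assoc, sp_mul_sp]

theorem coeff_sp (k l : ℤ) : (sp B k).coeff l = if l = k then 1 else 0 := by
  rw [sp]
  by_cases h : l = k
  · subst h
    rw [HahnSeries.coeff_single_same, if_pos rfl]
  · rw [HahnSeries.coeff_single_of_ne h, if_neg h]

/-- The working form of `Degenerates`, with `1 ≤ N` a natural number. -/
structure Fam (B A : Type) [CommRing B] [Algebra ℂ B] [CommRing A] [Algebra ℂ A] where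
  /-- the total space of the family -/
  Lam : Subalgebra ℂ (LaurentSeries B)
  /-- the bound -/
  N : ℕ
  /-- the special fibre -/
  pr : Lam →ₐ[ℂ] A
  one_le : 1 ≤ N
  low : ∀ x : LaurentSeries B, (∀ k < (N : ℤ), x.coeff k = 0) → x ∈ Lam
  up : ∀ x ∈ Lam, ∀ k < -(N : ℤ), x.coeff k = 0
  sm : ∀ x ∈ Lam, sp B 1 * x ∈ Lam
  surj : Function.Surjective pr
  ker : ∀ x : Lam, pr x = 0 ↔ ∃ y ∈ Lam, (x : LaurentSeries B) = sp B 1 * y

theorem fam_of_degenerates {A : Type} [Algebra ℂ B] [CommRing A] [Algebra ℂ A]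
    (h : Degenerates B A) : Nonempty (Fam B A) := by
  obtain ⟨Λ, N, π, h1, h2, h3, h4, h5⟩ := h
  have hN : N ≤ ((max N 1).toNat : ℤ) := by
    rw [Int.toNat_of_nonneg (le_trans zero_le_one (le_max_right N 1))]
    exact le_max_left N 1
  refine ⟨⟨Λ, (max N 1).toNat, π, ?_, fun x hx => h1 x fun k hk => hx k (lt_of_lt_of_le hk hN),
    fun x hx k hk => h2 x hx k (lt_of_lt_of_le hk (neg_le_neg hN)), h3, h4, h5⟩⟩
  have : (1 : ℤ) ≤ ((max N 1).toNat : ℤ) := by
    rw [Int.toNat_of_nonneg (le_trans zero_le_one (le_max_right N 1))]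
    exact le_max_right N 1
  exact_mod_cast this

namespace Fam

variable {A : Type} [Algebra ℂ B] [CommRing A] [Algebra ℂ A] (F : Fam B A)

theorem sp_mul_mem (k : ℕ) {x : LaurentSeries B} (hx : x ∈ F.Lam) : sp B k * x ∈ F.Lam := by
  induction k with
  | zero => rw [Nat.cast_zero, sp_zero, one_mul]; exact hx
  | succ k ih =>
    rw [Nat.cast_succ, add_comm, ← sp_mul_sp_mul]
    exact F.sm _ ih

theorem sp_mem (k : ℕ) : sp B k ∈ F.Lam := by
  have := F.sp_mul_mem k F.Lam.one_mem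
  rwa [mul_one] at this

/-- The lattice of the derivations of `B((s))` which preserve the family and map `s` to a Laurent
series with scalar coefficients. -/
def LD : Submodule ℂ (Derivation ℂ (LaurentSeries B) (LaurentSeries B)) where
  carrier := {Θ | (∀ x ∈ F.Lam, Θ x ∈ F.Lam) ∧
    ∀ k, (Θ (sp B 1)).coeff k ∈ Set.range (algebraMap ℂ B)}
  zero_mem' := ⟨fun x _ => F.Lam.zero_mem, fun k => ⟨0, by rw [map_zero]; rfl⟩⟩
  add_mem' := by
    rintro a b ⟨ha, ha'⟩ ⟨hb, hb'⟩
    refine ⟨fun x hx => F.Lam.add_mem (ha x hx) (hb x hx), fun k => ?_⟩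
    obtain ⟨u, hu⟩ := ha' k
    obtain ⟨v, hv⟩ := hb' k
    exact ⟨u + v, by rw [map_add, hu, hv]; rfl⟩
  smul_mem' := by
    rintro c a ⟨ha, ha'⟩
    refine ⟨fun x hx => F.Lam.smul_mem (ha x hx) c, fun k => ?_⟩
    obtain ⟨u, hu⟩ := ha' k
    exact ⟨c * u, by rw [map_mul, hu, ← Algebra.smul_def]; rfl⟩

end Fam

end Pool.Agent.W_90188c_h48
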