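import Pool.Agent.W_90188c_h48.Defs

/-!
# The derivations of `B((s))`

`liftD D` is the coefficientwise extension of a derivation `D` of `B`, `ds` is `d/ds`.
PROOFS.  Coefficientwise; Leibniz rule from `HahnSeries.coeff_mul` (for `ds`: the map
`(i, j) ↦ ` the sum over `i + j = k + 1` of `(k + 1) x_i y_j = (i + j) x_i y_j`, compare with
`∑_{i + j = k} (i + 1) x_{i+1} y_j + x_i (j + 1) y_{j+1}`; both sides can be written as sums over all of a
finite interval, or work with `LaurentSeries.derivative`, which has these coefficients, see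
`LaurentSeries.hasseDeriv_coeff`; perhaps easiest: it is enough to check the Leibniz rule for
`x = sp k * x'` with `x'` from a power series, where `PowerSeries.derivative` is a derivation).
-/

set_option autoImplicit false

attribute [-instance] HahnSeries.powerSeriesAlgebra

namespace Pool.Agent.W_90188c_h48

variable {B : Type} [CommRing B] [Algebra ℂ B]

/-- a family of linear maps of the coefficients which satisfies the Leibniz rule -/
private theorem DerT_gen (d : ℤ → B →ₗ[ℂ] B)
    (hd : ∀ (i j : ℤ) (b c : B), d (i + j) (b * c) = b * d j c + c * d i b) :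
    ∃ E : Derivation ℂ (LaurentSeries B) (LaurentSeries B),
      ∀ (x : LaurentSeries B) (k : ℤ), (E x).coeff k = d k (x.coeff k) := by
  have hs : ∀ x : LaurentSeries B, (Function.support fun k => d k (x.coeff k)) ⊆ x.support := by
    intro x k hk
    rw [Function.mem_support] at hk
    rw [HahnSeries.mem_support]
    intro h
    apply hk
    rw [h, map_zero]
  let f : LaurentSeries B → LaurentSeries B := fun x =>
    ⟨fun k => d k (x.coeff k), x.isPWO_support.mono (hs x)⟩
  have hf : ∀ x k, (f x).coeff k = d k (x.coeff k) := fun _ _ => rfl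
  have hfs : ∀ x, (f x).support ⊆ x.support := hs
  let g : LaurentSeries B →ₗ[ℂ] LaurentSeries B :=
    { toFun := f
      map_add' := by
        intro x y
        ext k
        rw [HahnSeries.coeff_add, hf, hf, hf, HahnSeries.coeff_add, map_add]
      map_smul' := by
        intro c x
        ext k
        rw [RingHom.id_apply, HahnSeries.coeff_smul, hf, hf, HahnSeries.coeff_smul, map_smul] }
  refine ⟨Derivation.mk' g ?_, fun x k => rfl⟩
  intro x y
  change f (x * y) = x * f y + y * f x
  ext k
  rw [hf, HahnSeries.coeff_add, mul_comm y (f x),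
    HahnSeries.coeff_mul_right' y.isPWO_support (hfs y),
    HahnSeries.coeff_mul_left' x.isPWO_support (hfs x), HahnSeries.coeff_mul, map_sum,
    ← Finset.sum_add_distrib]
  refine Finset.sum_congr rfl fun ij hij => ?_
  have h := (Finset.mem_addAntidiagonal.1 hij)
  rw [← h.2.2, hd, hf, hf, mul_comm (y.coeff ij.2)]

theorem exists_liftD (D : Derivation ℂ B B) :
    ∃ E : Derivation ℂ (LaurentSeries B) (LaurentSeries B),
      ∀ (x : LaurentSeries B) (k : ℤ), (E x).coeff k = D (x.coeff k) := by
  refine DerT_gen (fun _ => D.toLinearMap) fun i j b c => ?_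
  change D (b * c) = b * D c + c * D b
  rw [D.leibniz, smul_eq_mul, smul_eq_mul]

/-- the coefficientwise extension of a derivation of `B` -/
noncomputable def liftD (D : Derivation ℂ B B) : Derivation ℂ (LaurentSeries B) (LaurentSeries B) :=
  (exists_liftD D).choose

theorem liftD_coeff (D : Derivation ℂ B B) (x : LaurentSeries B) (k : ℤ) :
    (liftD D x).coeff k = D (x.coeff k) := (exists_liftD D).choose_spec x k

theorem exists_ds : ∃ E : Derivation ℂ (LaurentSeries B) (LaurentSeries B),
    ∀ (x : LaurentSeries B) (k : ℤ), (E x).coeff k = (k + 1) • x.coeff (k + 1) := by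
  obtain ⟨E, hE⟩ := DerT_gen (B := B) (fun k => k • LinearMap.id) (fun i j b c => by
    change (i + j) • (b * c) = b * (j • c) + c * (i • b)
    rw [add_smul, mul_smul_comm, mul_smul_comm, mul_comm c b, add_comm])
  refine ⟨sp B (-1) • E, fun x k => ?_⟩
  rw [Derivation.smul_apply, smul_eq_mul, coeff_sp_mul, hE, sub_neg_eq_add]
  rfl

/-- the derivation `d/ds` -/
noncomputable def ds (B : Type) [CommRing B] [Algebra ℂ B] :
    Derivation ℂ (LaurentSeries B) (LaurentSeries B) :=
  (exists_ds (B := B)).choose

theorem ds_coeff (x : LaurentSeries B) (k : ℤ) :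
    (ds B x).coeff k = (k + 1) • x.coeff (k + 1) := (exists_ds (B := B)).choose_spec x k

/-- the linear map `(c, D) ↦ s ^ l (c d/ds + D)` -/
noncomputable def e0D (B : Type) [CommRing B] [Algebra ℂ B] (l : ℤ) :
    (ℂ × Derivation ℂ B B) →ₗ[ℂ] Derivation ℂ (LaurentSeries B) (LaurentSeries B) where
  toFun v := sp B l • (v.1 • ds B + liftD v.2)
  map_add' v v' := by
    rw [Prod.fst_add, Prod.snd_add, add_smul]
    have : liftD (v.2 + v'.2) = liftD v.2 + liftD v'.2 := by
      ext x k
      rw [liftD_coeff, Derivation.add_apply, Derivation.add_apply, HahnSeries.coeff_add,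
        liftD_coeff, liftD_coeff]
    rw [this, ← smul_add]
    congr 1
    abel
  map_smul' c v := by
    rw [Prod.smul_fst, Prod.smul_snd, RingHom.id_apply]
    have : liftD (c • v.2) = c • liftD v.2 := by
      ext x k
      rw [liftD_coeff, Derivation.smul_apply, Derivation.smul_apply, HahnSeries.coeff_smul,
        liftD_coeff]
    rw [this, smul_comm c (sp B l), smul_add, smul_add, smul_add, smul_eq_mul, mul_smul]

theorem e0D_coeff (l : ℤ) (v : ℂ × Derivation ℂ B B) (x : LaurentSeries B) (k : ℤ) :
    (e0D B l v x).coeff k = v.1 • ((k - l + 1) • x.coeff (k - l + 1)) + v.2 (x.coeff (k - l)) := by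
  change (sp B l * (v.1 • ds B x + liftD v.2 x)).coeff k = _
  rw [coeff_sp_mul, HahnSeries.coeff_add, HahnSeries.coeff_smul, ds_coeff, liftD_coeff]

theorem sp_smul_e0D (k l : ℤ) (v : ℂ × Derivation ℂ B B) :
    sp B k • e0D B l v = e0D B (k + l) v := by
  change sp B k • (sp B l • (v.1 • ds B + liftD v.2)) = sp B (k + l) • (v.1 • ds B + liftD v.2)
  rw [smul_smul, sp_mul_sp]

end Pool.Agent.W_90188c_h48
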