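import Pool.Agent.W_90188c_h48.Defs

/-!
# The section given by the flow

`exists_section`.  PROOF.  For `x ∈ Λ` put `E_m x = ∑_{j < m} ((-1)^j / j!) • s ^ j ∇ ^ j x ∈ Λ`.
As `∇ ^ j x ∈ Λ` has no coefficients below `-N`, the coefficient of `E_m x` at `k` does not depend on `m`
once `m > k + N`; let `E x` be the Laurent series with these coefficients (no coefficients below
`-N`; `HahnSeries.ofSuppBddBelow`).  So `E x - E_m x` has no coefficients below `m - N`.
(1) `E x ∈ Λ` (take `m = 2 N`, `F.low`).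
(2) `E` is additive, `ℂ`-linear, `E 1 = 1`.
(3) `E (x y) = E x * E y`: `E_m x * E_m y - E_m (x y)` is a sum of terms `s ^ (i + j) z` with `z ∈ Λ`,
`i + j ≥ m` (Leibniz: `∇^j (x y) = ∑ choose ∇^i x ∇^(j-i) y`), so it has no coefficients below
`m - N`; and `E x * E y - E_m x * E_m y` has none below `m - 2 N`; let `m → ∞`.
(4) `E (s x) = 0` for `x ∈ Λ`: `∇^j (s x) = s ∇^j x + j ∇^(j-1) x`, so `E_m (s x)` telescopes to
`((-1)^(m-1) / (m-1)!) • s ^ m ∇^(m-1) x`, no coefficients below `m - N`.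
(5) `E x - x = s y` with `y ∈ Λ`: `E_m x - x` is of this form for `m ≥ 1` (terms `j ≥ 1`), and
`E x - E_m x` too for `m = 2 N + 1` (multiply by `sp (-1)`, `F.low`).
By (4) and `F.ker` the value `E x` depends only on `pr x`; `σ (pr x) = E x`; `pr (E x) = pr x` by (5).
-/

set_option autoImplicit false

attribute [-instance] HahnSeries.powerSeriesAlgebra

namespace Pool.Agent.W_90188c_h48

variable {B : Type} [CommRing B] [Algebra ℂ B]

/-- no coefficients below `n` -/
private def FlowE_Lo (n : ℤ) (x : LaurentSeries B) : Prop := ∀ k < n, x.coeff k = 0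

private lemma FlowE_lo_mono {n m : ℤ} (h : m ≤ n) {x : LaurentSeries B} (hx : FlowE_Lo n x) :
    FlowE_Lo m x := fun k hk => hx k (lt_of_lt_of_le hk h)

private lemma FlowE_lo_zero (n : ℤ) : FlowE_Lo n (0 : LaurentSeries B) := fun _ _ => rfl

private lemma FlowE_lo_add {n : ℤ} {x y : LaurentSeries B} (hx : FlowE_Lo n x) (hy : FlowE_Lo n y) :
    FlowE_Lo n (x + y) := by
  intro k hk
  rw [HahnSeries.coeff_add, hx k hk, hy k hk, add_zero]

private lemma FlowE_lo_sub {n : ℤ} {x y : LaurentSeries B} (hx : FlowE_Lo n x) (hy : FlowE_Lo n y) :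
    FlowE_Lo n (x - y) := by
  intro k hk
  rw [HahnSeries.coeff_sub, hx k hk, hy k hk, sub_zero]

private lemma FlowE_lo_sum {ι : Type*} (s : Finset ι) {n : ℤ} {f : ι → LaurentSeries B}
    (h : ∀ i ∈ s, FlowE_Lo n (f i)) : FlowE_Lo n (∑ i ∈ s, f i) := by
  intro k hk
  rw [HahnSeries.coeff_sum]
  exact Finset.sum_eq_zero fun i hi => h i hi k hk

private lemma FlowE_lo_mul {a b : ℤ} {x y : LaurentSeries B} (hx : FlowE_Lo a x)
    (hy : FlowE_Lo b y) : FlowE_Lo (a + b) (x * y) := by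
  intro k hk
  rw [HahnSeries.coeff_mul]
  refine Finset.sum_eq_zero fun ij hij => ?_
  rw [Finset.mem_antidiagonal] at hij
  by_cases h : ij.1 < a
  · rw [hx _ h, zero_mul]
  · have : ij.2 < b := by
      have := hij.2.2
      omega
    rw [hy _ this, mul_zero]

private lemma FlowE_lo_sp {n : ℤ} {x : LaurentSeries B} (k : ℤ) (hx : FlowE_Lo n x) :
    FlowE_Lo (n + k) (sp B k * x) := by
  intro l hl
  rw [coeff_sp_mul]
  exact hx _ (by omega)

private lemma FlowE_lo_ext {x : LaurentSeries B} (h : ∀ n : ℕ, FlowE_Lo (n : ℤ) x) : x = 0 := by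
  ext k
  exact h (k + 1).toNat k (by omega)

/-- finite sums of powers of `s` -/
private noncomputable def FlowE_S (m : ℕ) (a : ℕ → LaurentSeries B) : LaurentSeries B :=
  ∑ j ∈ Finset.range m, sp B j * a j

/-- the coefficients of the exponential -/
private noncomputable def FlowE_c (j : ℕ) : ℂ := (-1) ^ j / (j.factorial : ℂ)

private lemma FlowE_c_zero : FlowE_c 0 = 1 := by
  unfold FlowE_c
  simp

private lemma FlowE_c_succ (j : ℕ) : FlowE_c (j + 1) * ((j : ℂ) + 1) = -FlowE_c j := by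
  unfold FlowE_c
  rw [Nat.factorial_succ]
  have h1 : (j.factorial : ℂ) ≠ 0 := by exact_mod_cast j.factorial_ne_zero
  have h2 : ((j : ℂ) + 1) ≠ 0 := by exact_mod_cast j.succ_ne_zero
  push_cast
  field_simp
  ring

/-- the terms of the exponential -/
private noncomputable def FlowE_t (E : Derivation ℂ (LaurentSeries B) (LaurentSeries B))
    (x : LaurentSeries B) (j : ℕ) : LaurentSeries B := FlowE_c j • (⇑E)^[j] x

private lemma FlowE_iter_add (E : Derivation ℂ (LaurentSeries B) (LaurentSeries B)) (j : ℕ)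
    (x y : LaurentSeries B) : (⇑E)^[j] (x + y) = (⇑E)^[j] x + (⇑E)^[j] y := by
  induction j generalizing x y with
  | zero => rfl
  | succ j ih => rw [Function.iterate_succ_apply, Function.iterate_succ_apply,
      Function.iterate_succ_apply, map_add, ih]

private lemma FlowE_iter_smul (E : Derivation ℂ (LaurentSeries B) (LaurentSeries B)) (j : ℕ)
    (c : ℂ) (x : LaurentSeries B) : (⇑E)^[j] (c • x) = c • (⇑E)^[j] x := by
  induction j generalizing x with
  | zero => rfl
  | succ j ih => rw [Function.iterate_succ_apply, Function.iterate_succ_apply,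
      Derivation.map_smul, ih]

private lemma FlowE_t_add (E : Derivation ℂ (LaurentSeries B) (LaurentSeries B))
    (x y : LaurentSeries B) (j : ℕ) : FlowE_t E (x + y) j = FlowE_t E x j + FlowE_t E y j := by
  unfold FlowE_t
  rw [FlowE_iter_add, smul_add]

private lemma FlowE_t_smul (E : Derivation ℂ (LaurentSeries B) (LaurentSeries B))
    (c : ℂ) (x : LaurentSeries B) (j : ℕ) : FlowE_t E (c • x) j = c • FlowE_t E x j := by
  unfold FlowE_t
  rw [FlowE_iter_smul, smul_comm]

private lemma FlowE_t_succ (E : Derivation ℂ (LaurentSeries B) (LaurentSeries B))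
    (x : LaurentSeries B) (j : ℕ) :
    FlowE_t E x (j + 1) * ((j : LaurentSeries B) + 1) = -FlowE_t E (E x) j := by
  have h1 : ((j : LaurentSeries B) + 1) = algebraMap ℂ (LaurentSeries B) ((j : ℂ) + 1) := by
    rw [map_add, map_one, map_natCast]
  unfold FlowE_t
  rw [h1, mul_comm, ← Algebra.smul_def, smul_smul, mul_comm ((j : ℂ) + 1), FlowE_c_succ,
    Function.iterate_succ_apply, neg_smul]

open PowerSeries in
private noncomputable def FlowE_P (E : Derivation ℂ (LaurentSeries B) (LaurentSeries B))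
    (x : LaurentSeries B) : PowerSeries (LaurentSeries B) := PowerSeries.mk (FlowE_t E x)

private lemma FlowE_coeff_P (E : Derivation ℂ (LaurentSeries B) (LaurentSeries B))
    (x : LaurentSeries B) (j : ℕ) : PowerSeries.coeff j (FlowE_P E x) = FlowE_t E x j :=
  PowerSeries.coeff_mk _ _

private lemma FlowE_P_add (E : Derivation ℂ (LaurentSeries B) (LaurentSeries B))
    (x y : LaurentSeries B) : FlowE_P E (x + y) = FlowE_P E x + FlowE_P E y := by
  ext1 j
  rw [map_add, FlowE_coeff_P, FlowE_coeff_P, FlowE_coeff_P, FlowE_t_add]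

private lemma FlowE_P_der (E : Derivation ℂ (LaurentSeries B) (LaurentSeries B))
    (x : LaurentSeries B) :
    PowerSeries.derivative (LaurentSeries B) (FlowE_P E x) = -FlowE_P E (E x) := by
  ext1 j
  rw [PowerSeries.coeff_derivative, FlowE_coeff_P, FlowE_t_succ, map_neg, FlowE_coeff_P]

private lemma FlowE_P_mul_coeff (E : Derivation ℂ (LaurentSeries B) (LaurentSeries B)) (j : ℕ) :
    ∀ x y : LaurentSeries B, PowerSeries.coeff j (FlowE_P E (x * y)) =
      PowerSeries.coeff j (FlowE_P E x * FlowE_P E y) := by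
  induction j with
  | zero =>
    intro x y
    rw [PowerSeries.coeff_mul, Finset.Nat.antidiagonal_zero, Finset.sum_singleton]
    simp only [FlowE_coeff_P, FlowE_t, FlowE_c_zero, one_smul, Function.iterate_zero, id]
  | succ j ih =>
    intro x y
    have hu : IsUnit (((j : LaurentSeries B) + 1)) := by
      have h1 : ((j : LaurentSeries B) + 1) = algebraMap ℂ (LaurentSeries B) ((j : ℂ) + 1) := by
        rw [map_add, map_one, map_natCast]
      rw [h1]
      have h2 : ((j : ℂ) + 1) ≠ 0 := by exact_mod_cast j.succ_ne_zero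
      exact (isUnit_iff_ne_zero.2 h2).map (algebraMap ℂ (LaurentSeries B))
    apply hu.mul_right_cancel
    rw [← PowerSeries.coeff_derivative, ← PowerSeries.coeff_derivative, FlowE_P_der,
      Derivation.leibniz, Derivation.leibniz, FlowE_P_der, FlowE_P_der, smul_eq_mul, smul_eq_mul,
      smul_eq_mul, smul_eq_mul, FlowE_P_add, map_neg, map_add, map_add, ih, ih, mul_neg, mul_neg,
      map_neg, map_neg]
    ring

private lemma FlowE_conv (E : Derivation ℂ (LaurentSeries B) (LaurentSeries B))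
    (x y : LaurentSeries B) (j : ℕ) : FlowE_t E (x * y) j =
      ∑ p ∈ Finset.HasAntidiagonal.antidiagonal j, FlowE_t E x p.1 * FlowE_t E y p.2 := by
  have h := FlowE_P_mul_coeff E j x y
  rw [FlowE_coeff_P, PowerSeries.coeff_mul] at h
  simpa only [FlowE_coeff_P] using h

/-- products of finite sums -/
private lemma FlowE_S_mul {n : ℤ} (m : ℕ) (a b : ℕ → LaurentSeries B)
    (h : ∀ i l, FlowE_Lo n (a i * b l)) :
    FlowE_Lo (n + m) (FlowE_S m a * FlowE_S m b -
      FlowE_S m (fun j => ∑ p ∈ Finset.HasAntidiagonal.antidiagonal j, a p.1 * b p.2)) := by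
  have h1 : FlowE_S m a * FlowE_S m b =
      ∑ p ∈ Finset.range m ×ˢ Finset.range m, sp B ((p.1 + p.2 : ℕ) : ℤ) * (a p.1 * b p.2) := by
    unfold FlowE_S
    rw [Finset.sum_mul_sum, ← Finset.sum_product']
    refine Finset.sum_congr rfl fun p _ => ?_
    push_cast
    rw [← sp_mul_sp]
    ring
  have h2 : FlowE_S m (fun j => ∑ p ∈ Finset.HasAntidiagonal.antidiagonal j, a p.1 * b p.2) =
      ∑ p ∈ (Finset.range m ×ˢ Finset.range m).filter (fun p => p.1 + p.2 < m),
        sp B ((p.1 + p.2 : ℕ) : ℤ) * (a p.1 * b p.2) := by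
    unfold FlowE_S
    have h5 := (Finset.sum_fiberwise_of_maps_to
      (s := (Finset.range m ×ˢ Finset.range m).filter (fun p => p.1 + p.2 < m))
      (t := Finset.range m) (g := fun p : ℕ × ℕ => p.1 + p.2) (fun p hp => by
        rw [Finset.mem_filter] at hp
        exact Finset.mem_range.2 hp.2)
      (fun p => sp B ((p.1 + p.2 : ℕ) : ℤ) * (a p.1 * b p.2))).symm
    rw [h5]
    refine Finset.sum_congr rfl fun j hj => ?_
    rw [Finset.mem_range] at hj
    have h3 : ((Finset.range m ×ˢ Finset.range m).filter (fun p => p.1 + p.2 < m)).filter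
        (fun p => p.1 + p.2 = j) = Finset.HasAntidiagonal.antidiagonal j := by
      ext p
      rw [Finset.mem_filter, Finset.mem_filter, Finset.mem_product, Finset.mem_range,
        Finset.mem_range, Finset.HasAntidiagonal.mem_antidiagonal]
      omega
    rw [h3, Finset.mul_sum]
    refine Finset.sum_congr rfl fun p hp => ?_
    rw [Finset.HasAntidiagonal.mem_antidiagonal] at hp
    rw [hp]
  rw [h1, h2, ← Finset.sum_filter_add_sum_filter_not (Finset.range m ×ˢ Finset.range m)
    (fun p => p.1 + p.2 < m), add_sub_cancel_left]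
  refine FlowE_lo_sum _ fun p hp => ?_
  rw [Finset.mem_filter] at hp
  refine FlowE_lo_mono ?_ (FlowE_lo_sp _ (h p.1 p.2))
  have := hp.2
  push_cast
  omega

section

variable {A : Type} [CommRing A] [Algebra ℂ A] (F : Fam B A)
    (E : Derivation ℂ (LaurentSeries B) (LaurentSeries B))

private noncomputable def FlowE_m (m : ℕ) (x : LaurentSeries B) : LaurentSeries B :=
  FlowE_S m (FlowE_t E x)

private lemma FlowE_m_coeff (m : ℕ) (x : LaurentSeries B) (k : ℤ) :
    (FlowE_m E m x).coeff k = ∑ j ∈ Finset.range m, (FlowE_t E x j).coeff (k - j) := by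
  unfold FlowE_m FlowE_S
  rw [HahnSeries.coeff_sum]
  exact Finset.sum_congr rfl fun j _ => coeff_sp_mul _ _ _

private lemma FlowE_m_add (m : ℕ) (x y : LaurentSeries B) :
    FlowE_m E m (x + y) = FlowE_m E m x + FlowE_m E m y := by
  unfold FlowE_m FlowE_S
  rw [← Finset.sum_add_distrib]
  exact Finset.sum_congr rfl fun j _ => by rw [FlowE_t_add, mul_add]

private lemma FlowE_m_smul (m : ℕ) (c : ℂ) (x : LaurentSeries B) :
    FlowE_m E m (c • x) = c • FlowE_m E m x := by
  unfold FlowE_m FlowE_S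
  rw [Finset.smul_sum]
  exact Finset.sum_congr rfl fun j _ => by rw [FlowE_t_smul, mul_smul_comm]

/-- the exponential -/
private noncomputable def FlowE_E (N : ℕ) (x : LaurentSeries B) : LaurentSeries B :=
  HahnSeries.ofSuppBddBelow (fun k => (FlowE_m E (k + N + 1).toNat x).coeff k) (by
    refine ⟨-(N : ℤ), ?_⟩
    intro k hk
    rw [Function.mem_support] at hk
    by_contra h
    apply hk
    have h1 : (k + N + 1).toNat = 0 := by omega
    rw [h1]
    rfl)

private lemma FlowE_E_coeff (N : ℕ) (x : LaurentSeries B) (k : ℤ) :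
    (FlowE_E E N x).coeff k = (FlowE_m E (k + N + 1).toNat x).coeff k := rfl

variable {E}

private lemma FlowE_iter_mem (hE : ∀ x ∈ F.Lam, E x ∈ F.Lam) {x : LaurentSeries B}
    (hx : x ∈ F.Lam) (j : ℕ) : (⇑E)^[j] x ∈ F.Lam := by
  induction j with
  | zero => exact hx
  | succ j ih => rw [Function.iterate_succ_apply']; exact hE _ ih

private lemma FlowE_t_mem (hE : ∀ x ∈ F.Lam, E x ∈ F.Lam) {x : LaurentSeries B}
    (hx : x ∈ F.Lam) (j : ℕ) : FlowE_t E x j ∈ F.Lam :=
  F.Lam.smul_mem (FlowE_iter_mem F hE hx j) _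

private lemma FlowE_up {x : LaurentSeries B} (hx : x ∈ F.Lam) : FlowE_Lo (-(F.N : ℤ)) x :=
  F.up x hx

private lemma FlowE_close (hE : ∀ x ∈ F.Lam, E x ∈ F.Lam) {x : LaurentSeries B}
    (hx : x ∈ F.Lam) (m : ℕ) :
    FlowE_Lo ((m : ℤ) - F.N) (FlowE_E E F.N x - FlowE_m E m x) := by
  intro k hk
  rw [HahnSeries.coeff_sub, FlowE_E_coeff, FlowE_m_coeff, FlowE_m_coeff, sub_eq_zero]
  have h1 : (k + F.N + 1).toNat ≤ m := by omega
  refine Finset.sum_subset (Finset.range_subset_range.2 h1) fun j hj hj' => ?_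
  rw [Finset.mem_range] at hj hj'
  exact FlowE_up F (FlowE_t_mem F hE hx j) _ (by omega)

private lemma FlowE_m_mem (hE : ∀ x ∈ F.Lam, E x ∈ F.Lam) {x : LaurentSeries B}
    (hx : x ∈ F.Lam) (m : ℕ) : FlowE_m E m x ∈ F.Lam := by
  unfold FlowE_m FlowE_S
  exact F.Lam.sum_mem fun j _ => F.sp_mul_mem j (FlowE_t_mem F hE hx j)

private lemma FlowE_E_mem (hE : ∀ x ∈ F.Lam, E x ∈ F.Lam) {x : LaurentSeries B}
    (hx : x ∈ F.Lam) : FlowE_E E F.N x ∈ F.Lam := by
  have h1 := FlowE_close F hE hx (2 * F.N)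
  have h2 := F.low _ (FlowE_lo_mono (by push_cast; omega) h1)
  have h3 := F.Lam.add_mem h2 (FlowE_m_mem F hE hx (2 * F.N))
  rwa [sub_add_cancel] at h3

private lemma FlowE_E_add (N : ℕ) (x y : LaurentSeries B) :
    FlowE_E E N (x + y) = FlowE_E E N x + FlowE_E E N y := by
  ext k
  rw [HahnSeries.coeff_add, FlowE_E_coeff, FlowE_E_coeff, FlowE_E_coeff, FlowE_m_add,
    HahnSeries.coeff_add]

private lemma FlowE_E_smul (N : ℕ) (c : ℂ) (x : LaurentSeries B) :
    FlowE_E E N (c • x) = c • FlowE_E E N x := by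
  ext k
  rw [HahnSeries.coeff_smul, FlowE_E_coeff, FlowE_E_coeff, FlowE_m_smul, HahnSeries.coeff_smul]

private lemma FlowE_eq_of (hE : ∀ x ∈ F.Lam, E x ∈ F.Lam) {x y : LaurentSeries B}
    (hx : x ∈ F.Lam) (m0 : ℕ) (h : ∀ m, m0 ≤ m → FlowE_m E m x = y) : FlowE_E E F.N x = y := by
  rw [← sub_eq_zero]
  refine FlowE_lo_ext fun n => ?_
  have h1 := FlowE_close F hE hx (n + F.N + m0)
  rw [h _ (by omega)] at h1
  exact FlowE_lo_mono (by push_cast; omega) h1

private lemma FlowE_E_one (hE : ∀ x ∈ F.Lam, E x ∈ F.Lam) : FlowE_E E F.N 1 = 1 := by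
  refine FlowE_eq_of F hE F.Lam.one_mem 1 fun m hm => ?_
  unfold FlowE_m FlowE_S
  rw [Finset.sum_eq_single 0]
  · unfold FlowE_t
    rw [Nat.cast_zero, sp_zero, one_mul, FlowE_c_zero, one_smul]
    rfl
  · intro j _ hj
    obtain ⟨i, rfl⟩ : ∃ i, j = i + 1 := ⟨j - 1, by omega⟩
    unfold FlowE_t
    rw [Function.iterate_succ_apply, Derivation.map_one_eq_zero, iterate_map_zero, smul_zero,
      mul_zero]
  · intro h
    exact absurd (Finset.mem_range.2 (by omega)) h

private lemma FlowE_E_s (hE : ∀ x ∈ F.Lam, E x ∈ F.Lam) (hs : E (sp B 1) = 1) :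
    FlowE_E E F.N (sp B 1) = 0 := by
  have hmem : sp B 1 ∈ F.Lam := by
    have := F.sp_mem 1
    rwa [Nat.cast_one] at this
  refine FlowE_eq_of F hE hmem 2 fun m hm => ?_
  obtain ⟨n, rfl⟩ : ∃ n, m = n + 2 := ⟨m - 2, by omega⟩
  unfold FlowE_m FlowE_S
  rw [Finset.sum_range_succ', Finset.sum_range_succ', Finset.sum_eq_zero]
  · have hc1 : FlowE_c 1 = -1 := by
      unfold FlowE_c
      simp
    unfold FlowE_t
    rw [FlowE_c_zero, hc1, Function.iterate_succ_apply, hs]
    simp only [Function.iterate_zero, id, Nat.cast_zero, sp_zero, one_smul, neg_smul, zero_add,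
      Nat.cast_one, mul_neg, mul_one, one_mul]
    exact neg_add_cancel _
  · intro j _
    unfold FlowE_t
    rw [Function.iterate_succ_apply, Function.iterate_succ_apply, hs,
      Derivation.map_one_eq_zero, iterate_map_zero, smul_zero, mul_zero]

private lemma FlowE_E_mul (hE : ∀ x ∈ F.Lam, E x ∈ F.Lam) {x y : LaurentSeries B}
    (hx : x ∈ F.Lam) (hy : y ∈ F.Lam) :
    FlowE_E E F.N (x * y) = FlowE_E E F.N x * FlowE_E E F.N y := by
  rw [← sub_eq_zero]
  refine FlowE_lo_ext fun n => ?_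
  set m := n + 2 * F.N with hm
  have h1 := FlowE_close F hE (F.Lam.mul_mem hx hy) m
  have h2 := FlowE_close F hE hx m
  have h3 := FlowE_close F hE hy m
  have h4 : FlowE_Lo (-(F.N : ℤ) + m) (FlowE_m E m x * FlowE_m E m y - FlowE_m E m (x * y)) := by
    have h5 := FlowE_S_mul m (FlowE_t E x) (FlowE_t E y) (n := -(F.N : ℤ)) (fun i l =>
      FlowE_up F (F.Lam.mul_mem (FlowE_t_mem F hE hx i) (FlowE_t_mem F hE hy l)))
    have h6 : FlowE_m E m (x * y) = FlowE_S m (fun j => ∑ p ∈ Finset.HasAntidiagonal.antidiagonal j,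
        FlowE_t E x p.1 * FlowE_t E y p.2) := by
      unfold FlowE_m
      congr 1
      funext j
      exact FlowE_conv E x y j
    rw [h6]
    exact h5
  have h7 := FlowE_lo_mul h2 (FlowE_up F (FlowE_E_mem F hE hy))
  have h8 := FlowE_lo_mul (FlowE_up F (FlowE_m_mem F hE hx m)) h3
  have h9 : FlowE_E E F.N (x * y) - FlowE_E E F.N x * FlowE_E E F.N y =
      (FlowE_E E F.N (x * y) - FlowE_m E m (x * y)) -
      (FlowE_m E m x * FlowE_m E m y - FlowE_m E m (x * y)) -
      (FlowE_E E F.N x - FlowE_m E m x) * FlowE_E E F.N y -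
      FlowE_m E m x * (FlowE_E E F.N y - FlowE_m E m y) := by ring_nf
  rw [h9]
  refine FlowE_lo_sub (FlowE_lo_sub (FlowE_lo_sub ?_ ?_) ?_) ?_
  · exact FlowE_lo_mono (by rw [hm]; push_cast; omega) h1
  · exact FlowE_lo_mono (by rw [hm]; push_cast; omega) h4
  · exact FlowE_lo_mono (by rw [hm]; push_cast; omega) h7
  · exact FlowE_lo_mono (by rw [hm]; push_cast; omega) h8

private lemma FlowE_E_sub (hE : ∀ x ∈ F.Lam, E x ∈ F.Lam) {x : LaurentSeries B}
    (hx : x ∈ F.Lam) : ∃ y ∈ F.Lam, FlowE_E E F.N x - x = sp B 1 * y := by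
  have h1 := FlowE_close F hE hx (2 * F.N + 1)
  have h2 : sp B (-1) * (FlowE_E E F.N x - FlowE_m E (2 * F.N + 1) x) ∈ F.Lam :=
    F.low _ (FlowE_lo_mono (by push_cast; omega) (FlowE_lo_sp (-1) h1))
  refine ⟨sp B (-1) * (FlowE_E E F.N x - FlowE_m E (2 * F.N + 1) x) +
    ∑ j ∈ Finset.range (2 * F.N), sp B j * FlowE_t E x (j + 1), F.Lam.add_mem h2
    (F.Lam.sum_mem fun j _ => F.sp_mul_mem j (FlowE_t_mem F hE hx _)), ?_⟩
  have h3 : FlowE_m E (2 * F.N + 1) x =
      sp B 1 * (∑ j ∈ Finset.range (2 * F.N), sp B j * FlowE_t E x (j + 1)) + x := by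
    unfold FlowE_m FlowE_S
    rw [Finset.sum_range_succ', Finset.mul_sum]
    congr 1
    · refine Finset.sum_congr rfl fun j _ => ?_
      rw [sp_mul_sp_mul]
      push_cast
      rw [add_comm]
    · unfold FlowE_t
      rw [Nat.cast_zero, sp_zero, one_mul, FlowE_c_zero, one_smul]
      rfl
  rw [mul_add, sp_mul_sp_mul, add_neg_cancel, sp_zero, one_mul]
  rw [h3]
  ring

end

theorem exists_section {A : Type} [CommRing A] [Algebra ℂ A] (F : Fam B A)
    (E : Derivation ℂ (LaurentSeries B) (LaurentSeries B))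
    (hE : ∀ x ∈ F.Lam, E x ∈ F.Lam) (hs : E (sp B 1) = 1) :
    ∃ σ : A →ₐ[ℂ] F.Lam, ∀ a, F.pr (σ a) = a := by
  let L : F.Lam →ₗ[ℂ] F.Lam :=
    { toFun := fun x => ⟨FlowE_E E F.N x, FlowE_E_mem F hE x.2⟩
      map_add' := fun x y => Subtype.ext (FlowE_E_add F.N (x : LaurentSeries B) y)
      map_smul' := fun c x => Subtype.ext (FlowE_E_smul F.N c (x : LaurentSeries B)) }
  let g : F.Lam →ₐ[ℂ] F.Lam := AlgHom.ofLinearMap L (Subtype.ext (FlowE_E_one F hE))
    (fun x y => Subtype.ext (FlowE_E_mul F hE x.2 y.2))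
  have hg : ∀ x : F.Lam, ((g x : F.Lam) : LaurentSeries B) = FlowE_E E F.N x := fun x => rfl
  have hmem : sp B 1 ∈ F.Lam := by
    have := F.sp_mem 1
    rwa [Nat.cast_one] at this
  have hker : RingHom.ker F.pr ≤ RingHom.ker g := by
    intro x hx
    rw [RingHom.mem_ker] at hx ⊢
    obtain ⟨y, hy, hxy⟩ := (F.ker x).1 hx
    apply Subtype.ext
    rw [hg, hxy, FlowE_E_mul F hE hmem hy, FlowE_E_s F hE hs, zero_mul]
    rfl
  refine ⟨AlgHom.liftOfSurjective F.pr F.surj g hker, fun a => ?_⟩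
  obtain ⟨x, rfl⟩ := F.surj a
  rw [AlgHom.liftOfSurjective_apply, ← sub_eq_zero, ← map_sub, F.ker]
  exact FlowE_E_sub F hE x.2

end Pool.Agent.W_90188c_h48
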