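import Pool.Agent.W_90188c_h48.Defs

/-!
# The window lemma

PROOF.  Let `w : (Fin (m + 1) → V) →ₗ X`, `w u = ∑ j, S ^ j (e0 (u j))`, `Lb = {u | w u ∈ L}` and let
`sh u = (0, u 0, …, u (m - 1))` be the shift of `Fin (m + 1) → V`.
`w (sh u) = S (w u) - S ^ (m + 1) (e0 (u m))`, and for `u ∈ Lb` both terms are in `L` (`htop`, `hSL`), so
`sh` maps `Lb` to `Lb`.  The kernel of `sh` on `Lb` is `{(0, …, 0, v)}` which is all in `Lb` by `htop`,
so it has dimension `finrank V`.  Kernel of `u ↦ ρ (w u)` on `Lb`: `w u = S y` with `y ∈ L` (`hρ`), so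
`u 0 = 0` by `hlow`, and `w u = S (w u')` with `u' = (u 1, …, u m, 0)`; `S` is injective, so `w u' = y ∈ L`,
`u' ∈ Lb` and `sh u' = u`.  So `ker (ρ w) ≤ range (sh on Lb)` and by rank-nullity, twice,
`finrank V = finrank (ker sh) = finrank Lb - finrank (range sh) ≤ finrank Lb - finrank (ker ρ w)
= finrank (range ρ w) ≤ finrank Y`.
-/

set_option autoImplicit false

attribute [-instance] HahnSeries.powerSeriesAlgebra

namespace Pool.Agent.W_90188c_h48

section

variable {V X : Type} [AddCommGroup V] [Module ℂ V] [AddCommGroup X] [Module ℂ X]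

/-- the sum of a window -/
private noncomputable def windowSum (S : X →ₗ[ℂ] X) (e0 : V →ₗ[ℂ] X) (m : ℕ) :
    (Fin (m + 1) → V) →ₗ[ℂ] X :=
  ∑ j : Fin (m + 1), (S ^ (j : ℕ)) ∘ₗ e0 ∘ₗ LinearMap.proj j

private theorem windowSum_apply (S : X →ₗ[ℂ] X) (e0 : V →ₗ[ℂ] X) (m : ℕ) (u : Fin (m + 1) → V) :
    windowSum S e0 m u = ∑ j : Fin (m + 1), (S ^ (j : ℕ)) (e0 (u j)) := by
  rw [windowSum, LinearMap.sum_apply]
  rfl

/-- the shift -/
private noncomputable def windowShift (m : ℕ) : (Fin (m + 1) → V) →ₗ[ℂ] (Fin (m + 1) → V) where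
  toFun u := Fin.cons 0 (fun j : Fin m => u j.castSucc)
  map_add' u u' := by
    funext j
    refine Fin.cases ?_ (fun j => ?_) j
    · simp
    · simp
  map_smul' c u := by
    funext j
    refine Fin.cases ?_ (fun j => ?_) j
    · simp
    · simp

private theorem windowShift_zero (m : ℕ) (u : Fin (m + 1) → V) : windowShift m u 0 = 0 := rfl

private theorem windowShift_succ (m : ℕ) (u : Fin (m + 1) → V) (j : Fin m) :
    windowShift m u j.succ = u j.castSucc := rfl

private theorem windowSum_shift (S : X →ₗ[ℂ] X) (e0 : V →ₗ[ℂ] X) (m : ℕ) (u : Fin (m + 1) → V) :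
    windowSum S e0 m (windowShift m u) + (S ^ (m + 1)) (e0 (u (Fin.last m))) =
      S (windowSum S e0 m u) := by
  rw [windowSum_apply, windowSum_apply, Fin.sum_univ_succ, windowShift_zero, map_zero, map_zero,
    zero_add, map_sum, Fin.sum_univ_castSucc (n := m)]
  congr 1
  · refine Finset.sum_congr rfl fun j _ => ?_
    rw [windowShift_succ, Fin.val_succ, Fin.val_castSucc, pow_succ']
    rfl
  · rw [Fin.val_last, pow_succ']
    rfl

end

theorem window {V X Y : Type} [AddCommGroup V] [Module ℂ V] [Module.Finite ℂ V]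
    [AddCommGroup X] [Module ℂ X] [AddCommGroup Y] [Module ℂ Y] [Module.Finite ℂ Y]
    (S : X →ₗ[ℂ] X) (hS : Function.Injective S) (e0 : V →ₗ[ℂ] X) (m : ℕ) (L : Submodule ℂ X)
    (hSL : ∀ x ∈ L, S x ∈ L) (htop : ∀ v, (S ^ m) (e0 v) ∈ L)
    (hlow : ∀ u : Fin (m + 1) → V,
      (∃ y ∈ L, ∑ j : Fin (m + 1), (S ^ (j : ℕ)) (e0 (u j)) = S y) → u 0 = 0)
    (ρ : L →ₗ[ℂ] Y) (hρ : ∀ x : L, ρ x = 0 → ∃ y ∈ L, (x : X) = S y) :
    Module.finrank ℂ V ≤ Module.finrank ℂ Y := by
  set Lb : Submodule ℂ (Fin (m + 1) → V) := L.comap (windowSum S e0 m) with hLb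
  have hmem : ∀ u, u ∈ Lb ↔ windowSum S e0 m u ∈ L := fun u => Iff.rfl
  have hsh : ∀ u ∈ Lb, windowShift m u ∈ Lb := by
    intro u hu
    rw [hmem] at hu ⊢
    have h1 := windowSum_shift S e0 m u
    have h2 : windowSum S e0 m (windowShift m u) =
        S (windowSum S e0 m u) - (S ^ (m + 1)) (e0 (u (Fin.last m))) := by
      rw [← h1, add_sub_cancel_right]
    rw [h2]
    refine L.sub_mem (hSL _ hu) ?_
    rw [pow_succ']
    exact hSL _ (htop _)
  let sh : Lb →ₗ[ℂ] Lb := (windowShift m).restrict hsh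
  let r : Lb →ₗ[ℂ] Y := ρ ∘ₗ ((windowSum S e0 m).restrict (p := Lb) (q := L) fun u hu => hu)
  have hker : LinearMap.ker r ≤ LinearMap.range sh := by
    rintro ⟨u, hu⟩ h
    rw [LinearMap.mem_ker] at h
    obtain ⟨y, hy, hyu⟩ := hρ _ h
    have hyu' : windowSum S e0 m u = S y := hyu
    have hu0 : u 0 = 0 := by
      refine hlow u ⟨y, hy, ?_⟩
      rw [← windowSum_apply]
      exact hyu'
    set u' : Fin (m + 1) → V := Fin.snoc (fun j : Fin m => u j.succ) 0 with hu'
    have hshu : windowShift m u' = u := by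
      funext j
      refine Fin.cases ?_ (fun j => ?_) j
      · rw [windowShift_zero, hu0]
      · rw [windowShift_succ, hu', Fin.snoc_castSucc]
    have hwu : windowSum S e0 m u' = y := by
      apply hS
      rw [← windowSum_shift, hshu, hu', Fin.snoc_last, map_zero, map_zero, add_zero, hyu']
    refine ⟨⟨u', ?_⟩, Subtype.ext hshu⟩
    rw [hmem, hwu]
    exact hy
  -- the kernel of the shift
  let k : V →ₗ[ℂ] LinearMap.ker sh :=
    LinearMap.codRestrict _ (LinearMap.codRestrict Lb
      (LinearMap.single ℂ (fun _ : Fin (m + 1) => V) (Fin.last m)) (by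
        intro v
        rw [hmem, windowSum_apply, Finset.sum_eq_single (Fin.last m)]
        · rw [LinearMap.coe_single, Pi.single_eq_same, Fin.val_last]
          exact htop v
        · intro j _ hj
          rw [LinearMap.coe_single, Pi.single_eq_of_ne hj, map_zero, map_zero]
        · intro h
          exact absurd (Finset.mem_univ _) h)) (by
        intro v
        rw [LinearMap.mem_ker]
        apply Subtype.ext
        funext j
        refine Fin.cases ?_ (fun j => ?_) j
        · rfl
        · change (Pi.single (Fin.last m) v : Fin (m + 1) → V) j.castSucc = 0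
          rw [Pi.single_eq_of_ne (Fin.castSucc_lt_last j).ne])
  have hk : Function.Injective k := by
    intro v v' h
    have h1 := congrArg (fun z : LinearMap.ker sh => (z.1.1 : Fin (m + 1) → V) (Fin.last m)) h
    have h2 : ∀ v : V, ((k v).1.1 : Fin (m + 1) → V) (Fin.last m) = v := by
      intro v
      change (Pi.single (Fin.last m) v : Fin (m + 1) → V) (Fin.last m) = v
      rw [Pi.single_eq_same]
    have h3 : ((k v).1.1 : Fin (m + 1) → V) (Fin.last m) =
      ((k v').1.1 : Fin (m + 1) → V) (Fin.last m) := h1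
    rwa [h2, h2] at h3
  have e1 := LinearMap.finrank_range_add_finrank_ker sh
  have e2 := LinearMap.finrank_range_add_finrank_ker r
  have e3 := LinearMap.finrank_le_finrank_of_injective hk
  have e4 := Submodule.finrank_mono hker
  have e5 := Submodule.finrank_le (LinearMap.range r)
  omega

end Pool.Agent.W_90188c_h48
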