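import Pool.Agent.W_90188c_h48.DerT
import Pool.Agent.W_90188c_h48.Window

/-!
# The lattice of derivations of a family

`LD` is the lattice of the derivations of `B((s))` which preserve `Λ` (see `Defs`).
`lat_le`: if every element of `LD` maps `s` into `s Λ`, then `dim Der B + 1 ≤ dim Der A`.

PROOF.  Apply `window` with `V = ℂ × Der B`, `X = Der (B((s)))`, `S = (s • ·)`, `e0 = e0D B (-2N)`,
`m = 4N + 1`, `L = F.LD`, `Y = Der A`.
* `S` injective: multiply by `sp (-1)`.
* `hSL`: clear (`F.sm`; the coefficients of `(s • Θ) s` are those of `Θ s` shifted).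
* `htop`: `S ^ m (e0 v) = e0D B (2N + 1) v` (`sp_smul_e0D`, induction).  For `x ∈ Λ` the coefficients of
  `x` below `-N` vanish (`F.up`), so by `e0D_coeff` those of `e0D B (2N + 1) v x` below `N` vanish, so
  it is in `Λ` (`F.low`); and `e0D B l v (sp 1)` has coefficients `v.1 • [k - l = 0]`, scalars (note
  `v.2` kills `0` and `1`).
* `hlow`: let `y ∈ LD`, `∑ j, e0D B (j - 2N) (u j) = s • y`; evaluate at `x_b = single N b ∈ Λ`:
  the coefficients of `y x_b ∈ Λ` below `-N` vanish.  The coefficient at `-N-1` of `s (y x_b)` gives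
  `(u 0).1 • N • b = 0` for all `b`, the one at `-N` gives `(u 0).2 b + (u 1).1 • N • b = 0`; `b = 1`
  gives `(u 0).1 = 0`, `(u 1).1 = 0` (`B` is nontrivial, of characteristic zero), then `(u 0).2 = 0`.
* `ρ`: `Θ ∈ LD` maps `s Λ` to `s Λ` (`Θ (s y) = s Θ y + y Θ s`), so it induces a derivation of `A`
  (`F.surj`, `F.ker`): `ρ Θ (pr x) = pr (Θ x)`.  If `ρ Θ = 0` then `Θ Λ ⊆ s Λ`, so `y = sp (-1) • Θ`
  preserves `Λ` and `Θ = s • y`.
`FiniteDer`: derivations of a finite-dimensional algebra form a finite-dimensional space.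
-/

set_option autoImplicit false

attribute [-instance] HahnSeries.powerSeriesAlgebra

namespace Pool.Agent.W_90188c_h48

variable {B : Type} [CommRing B] [Algebra ℂ B]

theorem finite_der (A : Type) [CommRing A] [Algebra ℂ A] [Module.Finite ℂ A] :
    Module.Finite ℂ (Derivation ℂ A A) := by
  let g : Derivation ℂ A A →ₗ[ℂ] (A →ₗ[ℂ] A) :=
    { toFun := fun D => D.toLinearMap
      map_add' := fun D D' => rfl
      map_smul' := fun c D => rfl }
  refine Module.Finite.of_injective g fun D D' h => ?_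
  ext x
  exact congrArg (fun l : A →ₗ[ℂ] A => l x) h

/-- multiplication by `s` on the derivations -/
private noncomputable def latdS (B : Type) [CommRing B] [Algebra ℂ B] :
    Derivation ℂ (LaurentSeries B) (LaurentSeries B) →ₗ[ℂ]
      Derivation ℂ (LaurentSeries B) (LaurentSeries B) where
  toFun Θ := sp B 1 • Θ
  map_add' Θ Θ' := smul_add _ _ _
  map_smul' c Θ := by
    rw [RingHom.id_apply]
    ext x : 1
    change sp B 1 * (c • Θ x) = c • (sp B 1 * Θ x)
    rw [mul_smul_comm]

private theorem latdS_apply (Θ : Derivation ℂ (LaurentSeries B) (LaurentSeries B)) :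
    latdS B Θ = sp B 1 • Θ := rfl

private theorem latdS_inj : Function.Injective (latdS B) := by
  intro Θ Θ' h
  rw [latdS_apply, latdS_apply] at h
  have h1 := congrArg (fun z => sp B (-1) • z) h
  simp only [smul_smul, sp_mul_sp] at h1
  rw [show (-1 + 1 : ℤ) = 0 by norm_num, sp_zero, one_smul, one_smul] at h1
  exact h1

private theorem latdS_pow (j : ℕ) (l : ℤ) (v : ℂ × Derivation ℂ B B) :
    (latdS B ^ j) (e0D B l v) = e0D B (l + j) v := by
  induction j with
  | zero => simp
  | succ j ih =>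
    rw [pow_succ', Module.End.mul_apply, ih, latdS_apply, sp_smul_e0D]
    have h : (1 : ℤ) + (l + (j : ℤ)) = l + ((j + 1 : ℕ) : ℤ) := by push_cast; ring
    rw [h]

/-- the restriction of a derivation of the lattice -/
private noncomputable def latdD {A : Type} [CommRing A] [Algebra ℂ A] (F : Fam B A) (Θ : F.LD) (x : F.Lam) :
    F.Lam := ⟨Θ.1 x.1, Θ.2.1 _ x.2⟩

private theorem latd_key {A : Type} [CommRing A] [Algebra ℂ A] (F : Fam B A)
    (h : ∀ Θ ∈ F.LD, ∃ y ∈ F.Lam, Θ (sp B 1) = sp B 1 * y) (Θ : F.LD) {x x' : F.Lam}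
    (hx : F.pr x = F.pr x') : F.pr (latdD F Θ x) = F.pr (latdD F Θ x') := by
  have h1 : F.pr (x - x') = 0 := by rw [map_sub, hx, sub_self]
  obtain ⟨z, hz, hzx⟩ := (F.ker _).1 h1
  obtain ⟨y, hy, hys⟩ := h Θ.1 Θ.2
  rw [← sub_eq_zero, ← map_sub, F.ker]
  refine ⟨Θ.1 z + z * y, F.Lam.add_mem (Θ.2.1 z hz) (F.Lam.mul_mem hz hy), ?_⟩
  have h2 : ((latdD F Θ x - latdD F Θ x' : F.Lam) : LaurentSeries B) =
      Θ.1 ((x - x' : F.Lam) : LaurentSeries B) := by
    change Θ.1 x.1 - Θ.1 x'.1 = Θ.1 (x.1 - x'.1)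
    rw [map_sub]
  rw [h2, hzx, Derivation.leibniz, hys, smul_eq_mul, smul_eq_mul]
  ring

private theorem latd_exists {A : Type} [CommRing A] [Algebra ℂ A] (F : Fam B A)
    (h : ∀ Θ ∈ F.LD, ∃ y ∈ F.Lam, Θ (sp B 1) = sp B 1 * y) :
    ∃ ρ : F.LD →ₗ[ℂ] Derivation ℂ A A, ∀ (Θ : F.LD) (x : F.Lam),
      ρ Θ (F.pr x) = F.pr (latdD F Θ x) := by
  let σ : A → F.Lam := Function.surjInv F.surj
  have hσ : ∀ a, F.pr (σ a) = a := Function.surjInv_eq F.surj
  let R : F.LD → A → A := fun Θ a => F.pr (latdD F Θ (σ a))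
  have hR : ∀ Θ x, R Θ (F.pr x) = F.pr (latdD F Θ x) := fun Θ x => latd_key F h Θ (hσ _)
  let g : F.LD → (A →ₗ[ℂ] A) := fun Θ =>
    { toFun := R Θ
      map_add' := by
        intro a b
        obtain ⟨x, rfl⟩ := F.surj a
        obtain ⟨y, rfl⟩ := F.surj b
        rw [← map_add, hR, hR, hR, ← map_add]
        congr 1
        apply Subtype.ext
        change Θ.1 (x.1 + y.1) = Θ.1 x.1 + Θ.1 y.1
        rw [map_add]
      map_smul' := by
        intro c a
        obtain ⟨x, rfl⟩ := F.surj a
        rw [← map_smul, hR, hR, RingHom.id_apply, ← map_smul]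
        congr 1
        apply Subtype.ext
        change Θ.1 (c • x.1) = c • Θ.1 x.1
        exact Derivation.map_smul Θ.1 c x.1 }
  have hg : ∀ Θ x, g Θ (F.pr x) = F.pr (latdD F Θ x) := hR
  let D : F.LD → Derivation ℂ A A := fun Θ => Derivation.mk' (g Θ) (by
    intro a b
    obtain ⟨x, rfl⟩ := F.surj a
    obtain ⟨y, rfl⟩ := F.surj b
    rw [← map_mul, hg, hg, hg, smul_eq_mul, smul_eq_mul, ← map_mul, ← map_mul, ← map_add]
    congr 1
    apply Subtype.ext
    change Θ.1 (x.1 * y.1) = x.1 * Θ.1 y.1 + y.1 * Θ.1 x.1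
    rw [Derivation.leibniz, smul_eq_mul, smul_eq_mul])
  have hD : ∀ Θ x, D Θ (F.pr x) = F.pr (latdD F Θ x) := hR
  refine ⟨{ toFun := D, map_add' := ?_, map_smul' := ?_ }, hD⟩
  · intro Θ Θ'
    ext a
    obtain ⟨x, rfl⟩ := F.surj a
    rw [Derivation.add_apply, hD, hD, hD, ← map_add]
    rfl
  · intro c Θ
    ext a
    obtain ⟨x, rfl⟩ := F.surj a
    rw [RingHom.id_apply, Derivation.smul_apply, hD, hD, ← map_smul]
    rfl

private theorem latd_single_mem {A : Type} [CommRing A] [Algebra ℂ A] (F : Fam B A) (b : B) :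
    (HahnSeries.single (F.N : ℤ) b : LaurentSeries B) ∈ F.Lam := by
  refine F.low _ fun k hk => ?_
  exact HahnSeries.coeff_single_of_ne hk.ne

private theorem latd_scalar [Nontrivial B] {c : ℂ} {n : ℤ} (hn : n ≠ 0)
    (h : c • (n • (1 : B)) = 0) : c = 0 := by
  have h1 : algebraMap ℂ B (c * n) = 0 := by
    rw [Algebra.algebraMap_eq_smul_one, ← h, mul_smul, ← Int.cast_smul_eq_zsmul ℂ n (1 : B)]
  have h2 : c * n = 0 := (map_eq_zero_iff _ (algebraMap ℂ B).injective).1 h1
  rcases mul_eq_zero.1 h2 with h3 | h3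
  · exact h3
  · exact absurd (by exact_mod_cast h3) hn

theorem lat_le {A : Type} [CommRing A] [Algebra ℂ A] [Module.Finite ℂ A] [Module.Finite ℂ B]
    [Nontrivial B] (F : Fam B A)
    (h : ∀ Θ ∈ F.LD, ∃ y ∈ F.Lam, Θ (sp B 1) = sp B 1 * y) :
    Module.finrank ℂ (Derivation ℂ B B) + 1 ≤ Module.finrank ℂ (Derivation ℂ A A) := by
  have := finite_der A
  have := finite_der B
  obtain ⟨ρ, hρ⟩ := latd_exists F h
  have hN := F.one_le
  have key := window (V := ℂ × Derivation ℂ B B) (Y := Derivation ℂ A A) (latdS B) latdS_inj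
    (e0D B (-2 * (F.N : ℤ))) (4 * F.N + 1) F.LD ?_ ?_ ?_ ρ ?_
  · rw [Module.finrank_prod, Module.finrank_self] at key
    omega
  · rintro Θ ⟨h1, h2⟩
    refine ⟨fun x hx => F.sm _ (h1 x hx), fun k => ?_⟩
    change (sp B 1 * Θ (sp B 1)).coeff k ∈ _
    rw [coeff_sp_mul]
    exact h2 _
  · intro v
    rw [latdS_pow]
    refine ⟨fun x hx => F.low _ fun k hk => ?_, fun k => ?_⟩
    · rw [e0D_coeff, F.up x hx _ (by push_cast; omega), F.up x hx _ (by push_cast; omega),
        smul_zero, smul_zero, map_zero, add_zero]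
    · rw [e0D_coeff, coeff_sp, coeff_sp]
      have h0 : ∀ (P : Prop) [Decidable P], v.2 (if P then (1 : B) else 0) = 0 := by
        intro P _
        split
        · exact v.2.map_one_eq_zero
        · exact map_zero _
      rw [h0, add_zero]
      split
      · rename_i he
        rw [he]
        refine ⟨v.1, ?_⟩
        rw [one_smul, Algebra.algebraMap_eq_smul_one]
      · refine ⟨0, ?_⟩
        rw [smul_zero, smul_zero, map_zero]
  · rintro u ⟨y, hy, hu⟩
    have hsum : ∀ (b : B) (k : ℤ), k ≤ -(F.N : ℤ) →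
        ∑ j : Fin (4 * F.N + 1 + 1), (e0D B (-2 * (F.N : ℤ) + (j : ℕ)) (u j)
          (HahnSeries.single (F.N : ℤ) b)).coeff k = 0 := by
      intro b k hk
      have h1 := congrArg (fun Θ : Derivation ℂ (LaurentSeries B) (LaurentSeries B) =>
        (Θ (HahnSeries.single (F.N : ℤ) b)).coeff k) hu
      simp only [latdS_pow] at h1
      have h2 : ((latdS B y) (HahnSeries.single (F.N : ℤ) b)).coeff k = 0 := by
        change (sp B 1 * y (HahnSeries.single (F.N : ℤ) b)).coeff k = 0
        rw [coeff_sp_mul]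
        exact F.up _ (hy.1 _ (latd_single_mem F b)) _ (by omega)
      rw [h2] at h1
      rw [← h1]
      have h3 : ∀ (s : Finset (Fin (4 * F.N + 1 + 1))),
          ((∑ j ∈ s, e0D B (-2 * (F.N : ℤ) + (j : ℕ)) (u j)) (HahnSeries.single (F.N : ℤ) b)).coeff k
            = ∑ j ∈ s, (e0D B (-2 * (F.N : ℤ) + (j : ℕ)) (u j)
          (HahnSeries.single (F.N : ℤ) b)).coeff k := by
        intro s
        induction s using Finset.induction_on with
        | empty => simp
        | insert a s ha ih =>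
          rw [Finset.sum_insert ha, Finset.sum_insert ha, Derivation.add_apply,
            HahnSeries.coeff_add, ih]
      exact (h3 _).symm
    have hc : ∀ (b : B) (k : ℤ) (j : Fin (4 * F.N + 1 + 1)),
        (e0D B (-2 * (F.N : ℤ) + (j : ℕ)) (u j) (HahnSeries.single (F.N : ℤ) b)).coeff k =
          (u j).1 • ((k - (-2 * (F.N : ℤ) + (j : ℕ)) + 1) •
            (if k - (-2 * (F.N : ℤ) + (j : ℕ)) + 1 = F.N then b else 0)) +
          (u j).2 (if k - (-2 * (F.N : ℤ) + (j : ℕ)) = F.N then b else 0) := by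
      intro b k j
      have hs : ∀ i : ℤ, (HahnSeries.single (F.N : ℤ) b : LaurentSeries B).coeff i =
          if i = F.N then b else 0 := by
        intro i
        by_cases hi : i = F.N
        · rw [hi, HahnSeries.coeff_single_same, if_pos rfl]
        · rw [HahnSeries.coeff_single_of_ne hi, if_neg hi]
      rw [e0D_coeff, hs, hs]
    have e1 : ∀ b : B, (u 0).1 • ((F.N : ℤ) • b) = 0 := by
      intro b
      have h1 := hsum b (-(F.N : ℤ) - 1) (by omega)
      rw [Finset.sum_eq_single 0] at h1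
      · rw [hc, if_pos (by simp; ring), if_neg (by simp; omega), map_zero, add_zero] at h1
        rw [← h1]
        congr 2
        simp
        ring
      · intro j _ hj
        have hj0 : (j : ℕ) ≠ 0 := fun h => hj (Fin.ext h)
        rw [hc, if_neg (by omega), if_neg (by omega), map_zero, smul_zero, smul_zero, add_zero]
      · intro hj
        exact absurd (Finset.mem_univ _) hj
    have e2 : ∀ b : B, (u 0).2 b + (u 1).1 • ((F.N : ℤ) • b) = 0 := by
      intro b
      have h1 := hsum b (-(F.N : ℤ)) le_rfl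
      have h01 : (0 : Fin (4 * F.N + 1 + 1)) ≠ 1 := by
        intro h
        have := congrArg Fin.val h
        simp at this
      have hv1 : ((1 : Fin (4 * F.N + 1 + 1)) : ℕ) = 1 := by
        rw [Fin.val_one]
      rw [Finset.sum_eq_add (0 : Fin (4 * F.N + 1 + 1)) 1 h01] at h1
      · rw [hc, hc, if_neg (by simp; omega), if_pos (by simp; ring), if_pos (by rw [hv1]; push_cast; ring),
          if_neg (by rw [hv1]; omega), map_zero, add_zero, smul_zero, smul_zero, zero_add] at h1
        rw [← h1]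
        congr 3
        rw [hv1]
        push_cast
        ring
      · intro j _ hj
        have hj0 : (j : ℕ) ≠ 0 := fun h => hj.1 (Fin.ext h)
        have hj1 : (j : ℕ) ≠ 1 := fun h => hj.2 (Fin.ext (by rw [h, hv1]))
        rw [hc, if_neg (by omega), if_neg (by omega), map_zero, smul_zero, smul_zero, add_zero]
      · intro hj
        exact absurd (Finset.mem_univ _) hj
      · intro hj
        exact absurd (Finset.mem_univ _) hj
    have hN0 : (F.N : ℤ) ≠ 0 := by omega
    have f1 : (u 0).1 = 0 := latd_scalar hN0 (e1 1)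
    have f2 : (u 1).1 = 0 := by
      have := e2 1
      rw [(u 0).2.map_one_eq_zero, zero_add] at this
      exact latd_scalar hN0 this
    have f3 : (u 0).2 = 0 := by
      ext b
      have := e2 b
      rw [f2, zero_smul, add_zero] at this
      exact this
    exact Prod.ext f1 f3
  · intro Θ hΘ
    have h1 : ∀ x ∈ F.Lam, ∃ z ∈ F.Lam, Θ.1 x = sp B 1 * z := by
      intro x hx
      have h2 := hρ Θ ⟨x, hx⟩
      rw [hΘ] at h2
      exact (F.ker _).1 h2.symm
    refine ⟨sp B (-1) • Θ.1, ⟨fun x hx => ?_, fun k => ?_⟩, ?_⟩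
    · obtain ⟨z, hz, hxz⟩ := h1 x hx
      change sp B (-1) * Θ.1 x ∈ F.Lam
      rw [hxz, sp_mul_sp_mul, show (-1 + 1 : ℤ) = 0 by norm_num, sp_zero, one_mul]
      exact hz
    · change (sp B (-1) * Θ.1 (sp B 1)).coeff k ∈ _
      rw [coeff_sp_mul]
      exact Θ.2.2 _
    · rw [latdS_apply, smul_smul, sp_mul_sp, show (1 + -1 : ℤ) = 0 by norm_num, sp_zero, one_smul]

/-- multiplication by `s` -/
private noncomputable def latdM (B : Type) [CommRing B] [Algebra ℂ B] :
    LaurentSeries B →ₗ[ℂ] LaurentSeries B where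
  toFun x := sp B 1 * x
  map_add' x y := mul_add _ _ _
  map_smul' c x := by rw [RingHom.id_apply, mul_smul_comm]

private theorem latdM_apply (x : LaurentSeries B) : latdM B x = sp B 1 * x := rfl

private theorem latdM_pow (j : ℕ) (x : LaurentSeries B) : (latdM B ^ j) x = sp B j * x := by
  induction j with
  | zero => simp [sp_zero]
  | succ j ih =>
    rw [pow_succ', Module.End.mul_apply, ih, latdM_apply, sp_mul_sp_mul]
    congr 2
    push_cast
    ring

/-- the window lemma for the family itself -/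
theorem dim_le {A : Type} [CommRing A] [Algebra ℂ A] [Module.Finite ℂ A] [Module.Finite ℂ B]
    (F : Fam B A) : Module.finrank ℂ B ≤ Module.finrank ℂ A := by
  let e0 : B →ₗ[ℂ] LaurentSeries B :=
    { toFun := fun b => HahnSeries.single (-(F.N : ℤ)) b
      map_add' := fun b c => by
        ext k
        rw [HahnSeries.coeff_add]
        by_cases hk : k = -(F.N : ℤ)
        · subst hk
          rw [HahnSeries.coeff_single_same, HahnSeries.coeff_single_same,
            HahnSeries.coeff_single_same]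
        · rw [HahnSeries.coeff_single_of_ne hk, HahnSeries.coeff_single_of_ne hk,
            HahnSeries.coeff_single_of_ne hk, add_zero]
      map_smul' := fun c b => by
        ext k
        rw [RingHom.id_apply, HahnSeries.coeff_smul]
        by_cases hk : k = -(F.N : ℤ)
        · subst hk
          rw [HahnSeries.coeff_single_same, HahnSeries.coeff_single_same]
        · rw [HahnSeries.coeff_single_of_ne hk, HahnSeries.coeff_single_of_ne hk, smul_zero] }
  have he0 : ∀ (b : B) (k : ℤ), (e0 b).coeff k = if k = -(F.N : ℤ) then b else 0 := by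
    intro b k
    change (HahnSeries.single (-(F.N : ℤ)) b : LaurentSeries B).coeff k = _
    by_cases hk : k = -(F.N : ℤ)
    · rw [hk, HahnSeries.coeff_single_same, if_pos rfl]
    · rw [HahnSeries.coeff_single_of_ne hk, if_neg hk]
  let ρ : Subalgebra.toSubmodule F.Lam →ₗ[ℂ] A :=
    { toFun := fun x => F.pr ⟨x.1, x.2⟩
      map_add' := fun x y => map_add F.pr (⟨x.1, x.2⟩ : F.Lam) ⟨y.1, y.2⟩
      map_smul' := fun c x => map_smul F.pr c (⟨x.1, x.2⟩ : F.Lam) }
  refine window (latdM B) ?_ e0 (2 * F.N) (Subalgebra.toSubmodule F.Lam) ?_ ?_ ?_ ρ ?_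
  · intro x y hxy
    rw [latdM_apply, latdM_apply] at hxy
    have h1 := congrArg (fun z => sp B (-1) * z) hxy
    simp only [sp_mul_sp_mul] at h1
    rwa [show (-1 + 1 : ℤ) = 0 by norm_num, sp_zero, one_mul, one_mul] at h1
  · intro x hx
    exact F.sm x hx
  · intro v
    rw [latdM_pow]
    refine F.low _ fun k hk => ?_
    rw [coeff_sp_mul, he0, if_neg (by push_cast; omega)]
  · rintro u ⟨y, hy, hu⟩
    have h1 := congrArg (fun z : LaurentSeries B => z.coeff (-(F.N : ℤ))) hu
    simp only [latdM_pow] at h1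
    rw [latdM_apply, coeff_sp_mul, F.up y hy _ (by omega)] at h1
    have h3 : ∀ (s : Finset (Fin (2 * F.N + 1))),
        (∑ j ∈ s, sp B ((j : ℕ) : ℤ) * e0 (u j)).coeff (-(F.N : ℤ)) =
          ∑ j ∈ s, (sp B ((j : ℕ) : ℤ) * e0 (u j)).coeff (-(F.N : ℤ)) := by
      intro s
      induction s using Finset.induction_on with
      | empty => simp
      | insert a s ha ih =>
        rw [Finset.sum_insert ha, Finset.sum_insert ha, HahnSeries.coeff_add, ih]
    rw [h3, Finset.sum_eq_single 0] at h1
    · rw [coeff_sp_mul, he0, if_pos (by simp)] at h1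
      exact h1
    · intro j _ hj
      have hj0 : (j : ℕ) ≠ 0 := fun h => hj (Fin.ext h)
      rw [coeff_sp_mul, he0, if_neg (by omega)]
    · intro hj
      exact absurd (Finset.mem_univ _) hj
  · intro x hx
    exact (F.ker ⟨x.1, x.2⟩).1 hx

end Pool.Agent.W_90188c_h48
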