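import Mathlib

/-!
# Specialisation of an isomorphism

`null`: a system of polynomial equations over `ℂ` with a solution in a nonzero commutative `ℂ`-algebra
has a solution in `ℂ`.  PROOF: the ideal generated by `S` is in the kernel of `aeval z`, so it is
proper; by the Nullstellensatz (`MvPolynomial.vanishingIdeal_zeroLocus_eq_radical`) its zero locus is
not empty.

`iso_of_point`.  PROOF.  The hypotheses say that the entries of `x` and `y` satisfy a system of
polynomial equations with complex coefficients in `2 e ^ 2` variables; by `null` it has a solution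
`x', y'` over `ℂ`, and `α i ↦ ∑ j, x' i j • β j` is then an algebra isomorphism (linear equivalence
by `x' y' = y' x' = 1`, multiplicative on the basis, unit).
-/

set_option autoImplicit false

attribute [-instance] HahnSeries.powerSeriesAlgebra

namespace Pool.Agent.W_90188c_h48

theorem null {ι : Type} [Finite ι] (S : Set (MvPolynomial ι ℂ)) (K : Type) [CommRing K]
    [Nontrivial K] [Algebra ℂ K] (z : ι → K) (hz : ∀ p ∈ S, MvPolynomial.aeval z p = 0) :
    ∃ w : ι → ℂ, ∀ p ∈ S, MvPolynomial.aeval w p = 0 := by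
  have hle : Ideal.span S ≤ RingHom.ker (MvPolynomial.aeval (R := ℂ) z) := by
    rw [Ideal.span_le]
    intro p hp
    exact hz p hp
  have hne : Ideal.span S ≠ ⊤ := by
    intro h
    rw [h, top_le_iff] at hle
    have h1 : (1 : MvPolynomial ι ℂ) ∈ RingHom.ker (MvPolynomial.aeval (R := ℂ) z) := by
      rw [hle]; trivial
    rw [RingHom.mem_ker, map_one] at h1
    exact one_ne_zero h1
  obtain ⟨M, hM, hSM⟩ := Ideal.exists_le_maximal _ hne
  obtain ⟨w, hw⟩ := MvPolynomial.eq_vanishingIdeal_singleton_of_isMaximal ℂ hM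
  refine ⟨w, fun p hp => ?_⟩
  have h1 : p ∈ M := hSM (Ideal.subset_span hp)
  rw [hw, MvPolynomial.mem_vanishingIdeal_singleton_iff] at h1
  exact h1

theorem iso_of_point {A B : Type} [CommRing A] [Algebra ℂ A] [CommRing B] [Algebra ℂ B]
    {e : ℕ} (α : Module.Basis (Fin e) ℂ A) (β : Module.Basis (Fin e) ℂ B)
    (K : Type) [CommRing K] [Nontrivial K] [Algebra ℂ K] (x y : Matrix (Fin e) (Fin e) K)
    (hxy : x * y = 1) (hyx : y * x = 1)
    (hone : ∀ j, ∑ i, algebraMap ℂ K (α.repr 1 i) * x i j = algebraMap ℂ K (β.repr 1 j))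
    (hmul : ∀ i i' l, ∑ k, algebraMap ℂ K (α.repr (α i * α i') k) * x k l =
      ∑ j, ∑ j', algebraMap ℂ K (β.repr (β j * β j') l) * (x i j * x i' j')) :
    Nonempty (A ≃ₐ[ℂ] B) := by
  classical
  -- the system of equations
  let V := (Fin e × Fin e) ⊕ (Fin e × Fin e)
  let X : Fin e → Fin e → MvPolynomial V ℂ := fun i j => MvPolynomial.X (Sum.inl (i, j))
  let Y : Fin e → Fin e → MvPolynomial V ℂ := fun i j => MvPolynomial.X (Sum.inr (i, j))
  let P1 : Fin e × Fin e → MvPolynomial V ℂ := fun p =>
    (∑ k, X p.1 k * Y k p.2) - MvPolynomial.C (if p.1 = p.2 then 1 else 0)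
  let P2 : Fin e × Fin e → MvPolynomial V ℂ := fun p =>
    (∑ k, Y p.1 k * X k p.2) - MvPolynomial.C (if p.1 = p.2 then 1 else 0)
  let P3 : Fin e → MvPolynomial V ℂ := fun j =>
    (∑ i, MvPolynomial.C (α.repr 1 i) * X i j) - MvPolynomial.C (β.repr 1 j)
  let P4 : Fin e × Fin e × Fin e → MvPolynomial V ℂ := fun p =>
    (∑ k, MvPolynomial.C (α.repr (α p.1 * α p.2.1) k) * X k p.2.2) -
      ∑ j, ∑ j', MvPolynomial.C (β.repr (β j * β j') p.2.2) * (X p.1 j * X p.2.1 j')
  obtain ⟨w, hw⟩ := null (Set.range P1 ∪ Set.range P2 ∪ Set.range P3 ∪ Set.range P4) K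
    (Sum.elim (fun p => x p.1 p.2) (fun p => y p.1 p.2)) (by
      rintro p (((⟨q, rfl⟩ | ⟨q, rfl⟩) | ⟨q, rfl⟩) | ⟨q, rfl⟩)
      · have h1 := congrFun (congrFun hxy q.1) q.2
        rw [Matrix.mul_apply, Matrix.one_apply] at h1
        simp only [P1, X, Y, map_sub, map_sum, map_mul, MvPolynomial.aeval_X, Sum.elim_inl,
          Sum.elim_inr, MvPolynomial.aeval_C]
        rw [h1]
        split_ifs <;> simp
      · have h1 := congrFun (congrFun hyx q.1) q.2
        rw [Matrix.mul_apply, Matrix.one_apply] at h1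
        simp only [P2, X, Y, map_sub, map_sum, map_mul, MvPolynomial.aeval_X, Sum.elim_inl,
          Sum.elim_inr, MvPolynomial.aeval_C]
        rw [h1]
        split_ifs <;> simp
      · simp only [P3, X, map_sub, map_sum, map_mul, MvPolynomial.aeval_X, Sum.elim_inl,
          MvPolynomial.aeval_C]
        rw [hone q, sub_self]
      · simp only [P4, X, map_sub, map_sum, map_mul, MvPolynomial.aeval_X, Sum.elim_inl,
          MvPolynomial.aeval_C]
        rw [hmul q.1 q.2.1 q.2.2, sub_self])
  set x' : Fin e → Fin e → ℂ := fun i j => w (Sum.inl (i, j)) with hx'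
  set y' : Fin e → Fin e → ℂ := fun i j => w (Sum.inr (i, j)) with hy'
  have e1 : ∀ i j, ∑ k, x' i k * y' k j = if i = j then 1 else 0 := by
    intro i j
    have := hw (P1 (i, j)) (Or.inl (Or.inl (Or.inl ⟨_, rfl⟩)))
    simp only [P1, X, Y, map_sub, map_sum, map_mul, MvPolynomial.aeval_X, MvPolynomial.aeval_C,
      sub_eq_zero] at this
    simpa using this
  have e2 : ∀ i j, ∑ k, y' i k * x' k j = if i = j then 1 else 0 := by
    intro i j
    have := hw (P2 (i, j)) (Or.inl (Or.inl (Or.inr ⟨_, rfl⟩)))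
    simp only [P2, X, Y, map_sub, map_sum, map_mul, MvPolynomial.aeval_X, MvPolynomial.aeval_C,
      sub_eq_zero] at this
    simpa using this
  have e3 : ∀ j, ∑ i, α.repr 1 i * x' i j = β.repr 1 j := by
    intro j
    have := hw (P3 j) (Or.inl (Or.inr ⟨_, rfl⟩))
    simp only [P3, X, map_sub, map_sum, map_mul, MvPolynomial.aeval_X, MvPolynomial.aeval_C,
      sub_eq_zero] at this
    simpa using this
  have e4 : ∀ i i' l, ∑ k, α.repr (α i * α i') k * x' k l =
      ∑ j, ∑ j', β.repr (β j * β j') l * (x' i j * x' i' j') := by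
    intro i i' l
    have := hw (P4 (i, i', l)) (Or.inr ⟨_, rfl⟩)
    simp only [P4, X, map_sub, map_sum, map_mul, MvPolynomial.aeval_X, MvPolynomial.aeval_C,
      sub_eq_zero] at this
    simpa using this
  -- the maps
  let f : A →ₗ[ℂ] B := α.constr ℂ (fun i => ∑ j, x' i j • β j)
  let g : B →ₗ[ℂ] A := β.constr ℂ (fun j => ∑ i, y' j i • α i)
  have hf : ∀ i, f (α i) = ∑ j, x' i j • β j := fun i => α.constr_basis ℂ _ i
  have hg : ∀ j, g (β j) = ∑ i, y' j i • α i := fun j => β.constr_basis ℂ _ j
  have hgf : g ∘ₗ f = LinearMap.id := by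
    refine α.ext fun i => ?_
    rw [LinearMap.comp_apply, hf, map_sum, LinearMap.id_apply]
    have : ∀ j, g (x' i j • β j) = ∑ k, (x' i j * y' j k) • α k := by
      intro j
      rw [map_smul, hg, Finset.smul_sum]
      exact Finset.sum_congr rfl fun k _ => by rw [smul_smul]
    rw [Finset.sum_congr rfl fun j _ => this j, Finset.sum_comm]
    have h2 : ∀ k, ∑ j, (x' i j * y' j k) • α k = (if i = k then (1 : ℂ) else 0) • α k := by
      intro k
      rw [← Finset.sum_smul, e1]
    rw [Finset.sum_congr rfl fun k _ => h2 k]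
    simp
  have hfg : f ∘ₗ g = LinearMap.id := by
    refine β.ext fun i => ?_
    rw [LinearMap.comp_apply, hg, map_sum, LinearMap.id_apply]
    have : ∀ j, f (y' i j • α j) = ∑ k, (y' i j * x' j k) • β k := by
      intro j
      rw [map_smul, hf, Finset.smul_sum]
      exact Finset.sum_congr rfl fun k _ => by rw [smul_smul]
    rw [Finset.sum_congr rfl fun j _ => this j, Finset.sum_comm]
    have h2 : ∀ k, ∑ j, (y' i j * x' j k) • β k = (if i = k then (1 : ℂ) else 0) • β k := by
      intro k
      rw [← Finset.sum_smul, e2]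
    rw [Finset.sum_congr rfl fun k _ => h2 k]
    simp
  have hrepr : ∀ a : A, ∀ l, β.repr (f a) l = ∑ k, α.repr a k * x' k l := by
    intro a l
    conv_lhs => rw [← α.sum_repr a]
    rw [map_sum, map_sum, Finsupp.finset_sum_apply]
    refine Finset.sum_congr rfl fun k _ => ?_
    rw [map_smul, hf, map_smul, map_sum, Finsupp.smul_apply, Finsupp.finset_sum_apply, smul_eq_mul]
    congr 1
    rw [Finset.sum_eq_single l]
    · simp
    · intro j _ hj
      simp [hj]
    · intro h
      exact absurd (Finset.mem_univ _) h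
  have hone' : f 1 = 1 := by
    refine β.ext_elem fun l => ?_
    rw [hrepr, e3]
  have hmul' : ∀ a b : A, f (a * b) = f a * f b := by
    have key : (LinearMap.mul ℂ A).compr₂ f = (LinearMap.mul ℂ B).compl₁₂ f f := by
      refine α.ext fun i => α.ext fun i' => ?_
      simp only [LinearMap.compr₂_apply, LinearMap.compl₁₂_apply, LinearMap.mul_apply']
      refine β.ext_elem fun l => ?_
      rw [hrepr, e4, hf, hf, Finset.sum_mul_sum, map_sum, Finsupp.finset_sum_apply]
      refine Finset.sum_congr rfl fun j _ => ?_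
      rw [map_sum, Finsupp.finset_sum_apply]
      refine Finset.sum_congr rfl fun j' _ => ?_
      rw [smul_mul_smul_comm, map_smul, Finsupp.smul_apply, smul_eq_mul]
      ring
    intro a b
    have := LinearMap.congr_fun (LinearMap.congr_fun key a) b
    simpa using this
  let F : A →ₐ[ℂ] B := AlgHom.ofLinearMap f hone' hmul'
  refine ⟨AlgEquiv.ofBijective F ⟨?_, ?_⟩⟩
  · intro a b hab
    have h1 : f a = f b := hab
    have h2 := LinearMap.congr_fun hgf a
    have h3 := LinearMap.congr_fun hgf b
    simp only [LinearMap.comp_apply, LinearMap.id_apply] at h2 h3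
    rw [← h2, ← h3, h1]
  · intro b
    refine ⟨g b, ?_⟩
    exact LinearMap.congr_fun hfg b

end Pool.Agent.W_90188c_h48
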