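import Pool.Agent.W_90188c_h48.KInj
import Pool.Agent.W_90188c_h48.NullS
import Pool.Agent.W_90188c_h48.LatD

/-!
# A family with a section is trivial

`iso_of_section`.  PROOF.  Bases `α0` of `A`, `β0` of `B` with index types `Fin (finrank A)`,
`Fin (finrank B)`.  `x i j = crd β (σ (α i)) j` in the field `K = LaurentSeries ℂ`.  By `kinj` the map
`k ↦ k ᵥ* x` is injective, so `finrank A ≤ finrank B`, with `dim_le` they are equal; reindex both to
`Fin e`; then `x` is a square matrix with `vecMul` injective, hence a unit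
(`Matrix.vecMul_injective_iff_isUnit`), `y = x⁻¹`.  `hone`, `hmul` of `iso_of_point` are the coordinates
of `σ 1 = 1` and of `σ (α i * α i') = σ (α i) σ (α i')` (`crd_mul`; `algebraMap ℂ K = HahnSeries.C`,
`σ a = ∑ i, α.repr a i • σ (α i)`).
-/

set_option autoImplicit false

attribute [-instance] HahnSeries.powerSeriesAlgebra

namespace Pool.Agent.W_90188c_h48

variable {B : Type} [CommRing B] [Algebra ℂ B]

private theorem IsoS_crd_sum {ι κ : Type} [Fintype κ] (β : Module.Basis ι ℂ B) (c : κ → ℂ)
    (z : κ → LaurentSeries B) (j : ι) :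
    crd β (∑ i, c i • z i) j = ∑ i, (HahnSeries.C (c i) : LaurentSeries ℂ) * crd β (z i) j := by
  ext n
  rw [crd_coeff, HahnSeries.coeff_sum, HahnSeries.coeff_sum, map_sum, Finsupp.finsetSum_apply]
  refine Finset.sum_congr rfl fun i _ => ?_
  rw [HahnSeries.C_mul_eq_smul, HahnSeries.coeff_smul, HahnSeries.coeff_smul, map_smul,
    Finsupp.smul_apply, crd_coeff]

private theorem IsoS_sig {A : Type} [CommRing A] [Algebra ℂ A] (F : Fam B A)
    (σ : A →ₐ[ℂ] F.Lam) {κ : Type} [Fintype κ] (α : Module.Basis κ ℂ A) (a : A) :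
    ((σ a : F.Lam) : LaurentSeries B) = ∑ i, α.repr a i • ((σ (α i) : F.Lam) : LaurentSeries B) := by
  conv_lhs => rw [← α.sum_repr a]
  rw [map_sum, AddSubmonoidClass.coe_finsetSum]
  refine Finset.sum_congr rfl fun i _ => ?_
  rw [map_smul]
  rfl

private theorem IsoS_crd_one {ι : Type} (β : Module.Basis ι ℂ B) (j : ι) :
    crd β (1 : LaurentSeries B) j = HahnSeries.C (β.repr 1 j) := by
  ext n
  rw [crd_coeff, HahnSeries.C_apply, HahnSeries.coeff_one]
  by_cases h : n = 0
  · subst h
    rw [if_pos rfl, HahnSeries.coeff_single_same]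
  · rw [if_neg h, HahnSeries.coeff_single_of_ne h, map_zero, Finsupp.zero_apply]

theorem iso_of_section {A : Type} [CommRing A] [Algebra ℂ A] [Module.Finite ℂ A]
    [Module.Finite ℂ B] (F : Fam B A) (σ : A →ₐ[ℂ] F.Lam) (hσ : ∀ a, F.pr (σ a) = a) :
    Nonempty (A ≃ₐ[ℂ] B) := by
  classical
  let α0 := Module.finBasis ℂ A
  let β := Module.finBasis ℂ B
  have hle : Module.finrank ℂ A ≤ Module.finrank ℂ B := by
    let f : (Fin (Module.finrank ℂ A) → LaurentSeries ℂ) →ₗ[LaurentSeries ℂ]
        (Fin (Module.finrank ℂ B) → LaurentSeries ℂ) :=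
      Matrix.vecMulLinear (Matrix.of fun i j => crd β (σ (α0 i) : LaurentSeries B) j)
    have hf : Function.Injective f := by
      rw [← LinearMap.ker_eq_bot, LinearMap.ker_eq_bot']
      intro k hk
      refine kinj F σ hσ α0 β k fun j => ?_
      have := congrFun hk j
      exact this
    have h1 := LinearMap.finrank_le_finrank_of_injective hf
    rw [Module.finrank_fin_fun, Module.finrank_fin_fun] at h1
    exact h1
  have heq : Module.finrank ℂ A = Module.finrank ℂ B := le_antisymm hle (dim_le F)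
  let α : Module.Basis (Fin (Module.finrank ℂ B)) ℂ A := α0.reindex (finCongr heq)
  let x : Matrix (Fin (Module.finrank ℂ B)) (Fin (Module.finrank ℂ B)) (LaurentSeries ℂ) :=
    Matrix.of fun i j => crd β (σ (α i) : LaurentSeries B) j
  have hx : IsUnit x := by
    rw [← Matrix.vecMul_injective_iff_isUnit]
    intro k k' hkk
    have h1 : k - k' = 0 := by
      refine kinj F σ hσ α β (k - k') fun j => ?_
      have h2 := congrFun hkk j
      have h3 : Matrix.vecMul (k - k') x j = 0 := by
        rw [Matrix.sub_vecMul, Pi.sub_apply]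
        exact sub_eq_zero.mpr h2
      exact h3
    exact sub_eq_zero.mp h1
  have hdet : IsUnit x.det := (Matrix.isUnit_iff_isUnit_det x).mp hx
  refine iso_of_point α β (LaurentSeries ℂ) x x⁻¹ (Matrix.mul_nonsing_inv x hdet)
    (Matrix.nonsing_inv_mul x hdet) ?_ ?_
  · intro j
    have h1 : crd β ((σ 1 : F.Lam) : LaurentSeries B) j = HahnSeries.C (β.repr 1 j) := by
      rw [map_one]
      exact IsoS_crd_one β j
    rw [IsoS_sig F σ α 1, IsoS_crd_sum] at h1
    exact h1
  · intro i i' l
    have h1 : crd β ((σ (α i * α i') : F.Lam) : LaurentSeries B) l =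
        ∑ j, ∑ j', (HahnSeries.C (β.repr (β j * β j') l) : LaurentSeries ℂ) *
      (crd β (σ (α i) : LaurentSeries B) j * crd β (σ (α i') : LaurentSeries B) j') := by
      rw [map_mul]
      exact crd_mul β _ _ l
    rw [IsoS_sig F σ α (α i * α i'), IsoS_crd_sum] at h1
    exact h1

end Pool.Agent.W_90188c_h48
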