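import Pool.Agent.W_90188c_h48.UnitN

/-!
# The section in coordinates is injective over `ℂ((s))`

`crd β x j` is the Laurent series of the `j`-th coordinates of the coefficients of `x`.
`kinj`: if `∑ i, k i * crd β (σ (α i)) j = 0` for all `j` then `k = 0`.
PROOF.  For `k ∈ ℂ((s))` let `ι k ∈ B((s))` be the series with coefficients `algebraMap (k.coeff l)`.
`crd β (ι k * x) j = k * crd β x j` (coefficientwise), and `x` is determined by its coordinates, so the
hypothesis says `∑ i, ι (k i) * σ (α i) = 0`.  Show `(k i).coeff d = 0` for all `i` by strong induction on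
`d` (the supports of the finitely many `k i` are bounded below): if `(k i).coeff l = 0` for all
`l < d`, multiply by `sp (-d)`: we may assume `d = 0`.  Then `ι (k i) = c_i + s ι (k' i)` with
`c_i = (k i).coeff 0` and `ι (k' i) ∈ Λ` by `scalar_mem`; so `σ (∑ c_i α_i) ∈ s Λ`, and applying `F.pr`:
`∑ c_i α_i = 0`, so all `c_i = 0`.
-/

set_option autoImplicit false

attribute [-instance] HahnSeries.powerSeriesAlgebra

namespace Pool.Agent.W_90188c_h48

variable {B : Type} [CommRing B] [Algebra ℂ B]

/-- coordinates of a Laurent series with respect to a basis of the coefficients -/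
noncomputable def crd {ι : Type} (β : Module.Basis ι ℂ B) (x : LaurentSeries B) (j : ι) :
    LaurentSeries ℂ := HahnSeries.map x (β.coord j)

theorem crd_coeff {ι : Type} (β : Module.Basis ι ℂ B) (x : LaurentSeries B) (j : ι) (l : ℤ) :
    (crd β x j).coeff l = β.repr (x.coeff l) j := rfl

/-- the coefficients of a product as a sum over larger well-ordered sets -/
private theorem KInj_coeff_mul {R : Type} [CommRing R] (u v : LaurentSeries R) {s t : Set ℤ}
    (hs : s.IsPWO) (ht : t.IsPWO) (hu : ∀ a, u.coeff a ≠ 0 → a ∈ s)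
    (hv : ∀ a, v.coeff a ≠ 0 → a ∈ t) (n : ℤ) :
    (u * v).coeff n = ∑ ab ∈ Finset.antidiagonal hs ht n, u.coeff ab.1 * v.coeff ab.2 := by
  rw [HahnSeries.coeff_mul]
  apply Finset.sum_subset
  · intro ab hab
    rw [Finset.mem_antidiagonal] at hab ⊢
    exact ⟨hu _ hab.1, hv _ hab.2.1, hab.2.2⟩
  · intro ab hab hab'
    rw [Finset.mem_antidiagonal] at hab hab'
    by_contra h0
    exact hab' ⟨left_ne_zero_of_mul h0, right_ne_zero_of_mul h0, hab.2.2⟩

/-- the coordinates of a product -/
theorem crd_mul {ι : Type} [Fintype ι] (β : Module.Basis ι ℂ B) (x y : LaurentSeries B) (l : ι) :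
    crd β (x * y) l = ∑ i, ∑ j, (HahnSeries.C (β.repr (β i * β j) l) : LaurentSeries ℂ) *
      (crd β x i * crd β y j) := by
  ext n
  have hx : ∀ i a, (crd β x i).coeff a ≠ 0 → a ∈ x.support := by
    intro i a ha hxa
    apply ha
    rw [crd_coeff, hxa, map_zero, Finsupp.zero_apply]
  have hy : ∀ i a, (crd β y i).coeff a ≠ 0 → a ∈ y.support := by
    intro i a ha hxa
    apply ha
    rw [crd_coeff, hxa, map_zero, Finsupp.zero_apply]
  rw [crd_coeff, HahnSeries.coeff_mul, map_sum, Finsupp.finsetSum_apply]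
  have h1 : ∀ i j, ((HahnSeries.C (β.repr (β i * β j) l) : LaurentSeries ℂ) *
      (crd β x i * crd β y j)).coeff n = ∑ ab ∈ Finset.antidiagonal x.isPWO_support
        y.isPWO_support n, β.repr (β i * β j) l *
          (β.repr (x.coeff ab.1) i * β.repr (y.coeff ab.2) j) := by
    intro i j
    rw [HahnSeries.C_mul_eq_smul, HahnSeries.coeff_smul,
      KInj_coeff_mul _ _ x.isPWO_support y.isPWO_support (hx i) (hy j), smul_eq_mul,
      Finset.mul_sum]
    rfl
  have h2 : (∑ i, ∑ j, (HahnSeries.C (β.repr (β i * β j) l) : LaurentSeries ℂ) *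
      (crd β x i * crd β y j)).coeff n = ∑ i, ∑ j, ((HahnSeries.C (β.repr (β i * β j) l) :
        LaurentSeries ℂ) * (crd β x i * crd β y j)).coeff n := by
    rw [HahnSeries.coeff_sum]
    refine Finset.sum_congr rfl fun i _ => ?_
    rw [HahnSeries.coeff_sum]
  rw [h2]
  simp only [h1]
  have h3 : ∀ ab ∈ Finset.antidiagonal x.isPWO_support y.isPWO_support n,
      β.repr (x.coeff ab.1 * y.coeff ab.2) l = ∑ i, ∑ j, β.repr (β i * β j) l *
        (β.repr (x.coeff ab.1) i * β.repr (y.coeff ab.2) j) := by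
    intro ab _
    conv_lhs => rw [← β.sum_repr (x.coeff ab.1), ← β.sum_repr (y.coeff ab.2),
      Finset.sum_mul_sum, map_sum, Finsupp.finsetSum_apply]
    refine Finset.sum_congr rfl fun i _ => ?_
    rw [map_sum, Finsupp.finsetSum_apply]
    refine Finset.sum_congr rfl fun j _ => ?_
    rw [smul_mul_smul_comm, map_smul, Finsupp.smul_apply, smul_eq_mul]
    ring
  rw [Finset.sum_congr rfl h3, Finset.sum_comm]
  refine Finset.sum_congr rfl fun i _ => ?_
  rw [Finset.sum_comm]

/-- series with scalar coefficients -/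
private noncomputable def KInj_io (k : LaurentSeries ℂ) : LaurentSeries B :=
  HahnSeries.map k (algebraMap ℂ B)

private theorem KInj_io_coeff (k : LaurentSeries ℂ) (l : ℤ) :
    (KInj_io (B := B) k).coeff l = algebraMap ℂ B (k.coeff l) := rfl

private theorem KInj_crd_io {ι : Type} (β : Module.Basis ι ℂ B) (k : LaurentSeries ℂ)
    (x : LaurentSeries B) (j : ι) : crd β (KInj_io k * x) j = k * crd β x j := by
  ext n
  rw [crd_coeff, KInj_coeff_mul (KInj_io k) x k.isPWO_support x.isPWO_support
    (fun a ha hka => ha (by rw [KInj_io_coeff, hka, map_zero])) (fun a ha => ha),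
    KInj_coeff_mul k (crd β x j) k.isPWO_support x.isPWO_support (fun a ha => ha)
    (fun a ha hxa => ha (by rw [crd_coeff, hxa, map_zero, Finsupp.zero_apply])),
    map_sum, Finsupp.finsetSum_apply]
  refine Finset.sum_congr rfl fun ab _ => ?_
  rw [KInj_io_coeff, ← Algebra.smul_def, map_smul, Finsupp.smul_apply, smul_eq_mul, crd_coeff]

private theorem KInj_zero {A : Type} [CommRing A] [Algebra ℂ A] (F : Fam B A)
    (σ : A →ₐ[ℂ] F.Lam) (hσ : ∀ a, F.pr (σ a) = a) {κ : Type} [Fintype κ]
    (α : Module.Basis κ ℂ A) (k : κ → LaurentSeries ℂ) (h0 : ∀ i, ∀ l < 0, (k i).coeff l = 0)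
    (hk : ∑ i, KInj_io (k i) * (σ (α i) : LaurentSeries B) = 0) : ∀ i, (k i).coeff 0 = 0 := by
  let y : κ → LaurentSeries B := fun i =>
    sp B (-1) * (KInj_io (k i) - HahnSeries.C (algebraMap ℂ B ((k i).coeff 0)))
  have hyc : ∀ i l, (y i).coeff l = algebraMap ℂ B (if l = -1 then 0 else (k i).coeff (l + 1)) := by
    intro i l
    show (sp B (-1) * (KInj_io (k i) - HahnSeries.C (algebraMap ℂ B ((k i).coeff 0)))).coeff l = _
    rw [coeff_sp_mul, HahnSeries.coeff_sub, KInj_io_coeff, sub_neg_eq_add]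
    by_cases h : l = -1
    · subst h
      rw [if_pos rfl, map_zero]
      show algebraMap ℂ B ((k i).coeff 0) -
        (HahnSeries.C (algebraMap ℂ B ((k i).coeff 0)) : LaurentSeries B).coeff 0 = 0
      rw [HahnSeries.C_apply, HahnSeries.coeff_single_same, sub_self]
    · rw [if_neg h, HahnSeries.C_apply, HahnSeries.coeff_single_of_ne (by omega), sub_zero]
  have hyL : ∀ i, y i ∈ F.Lam := by
    intro i
    refine scalar_mem F _ (fun l hl => ?_) (fun l => ⟨_, (hyc i l).symm⟩)
    rw [hyc]
    by_cases h : l = -1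
    · rw [if_pos h, map_zero]
    · rw [if_neg h, h0 i (l + 1) (by omega), map_zero]
  have hsplit : ∀ i, KInj_io (B := B) (k i) =
      HahnSeries.C (algebraMap ℂ B ((k i).coeff 0)) + sp B 1 * y i := by
    intro i
    show _ = _ + sp B 1 * (sp B (-1) * _)
    rw [sp_mul_sp_mul, show (1 : ℤ) + -1 = 0 by norm_num, sp_zero, one_mul]
    abel
  have hC : ∀ (c : ℂ) (x : LaurentSeries B), HahnSeries.C (algebraMap ℂ B c) * x = c • x := by
    intro c x
    ext n
    rw [HahnSeries.C_mul_eq_smul, HahnSeries.coeff_smul, HahnSeries.coeff_smul, smul_eq_mul,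
      ← Algebra.smul_def]
  have h1 : ((σ (∑ i, (k i).coeff 0 • α i) : F.Lam) : LaurentSeries B) =
      sp B 1 * (-∑ i, y i * (σ (α i) : LaurentSeries B)) := by
    have h2 : ((σ (∑ i, (k i).coeff 0 • α i) : F.Lam) : LaurentSeries B) =
        ∑ i, (k i).coeff 0 • (σ (α i) : LaurentSeries B) := by
      rw [map_sum, AddSubmonoidClass.coe_finsetSum]
      refine Finset.sum_congr rfl fun i _ => ?_
      rw [map_smul]
      rfl
    rw [h2, mul_neg, Finset.mul_sum, eq_neg_iff_add_eq_zero, ← Finset.sum_add_distrib, ← hk]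
    refine Finset.sum_congr rfl fun i _ => ?_
    have h3 : (HahnSeries.C (algebraMap ℂ B ((k i).coeff 0)) + sp B 1 * y i) *
        (σ (α i) : LaurentSeries B) = (k i).coeff 0 • (σ (α i) : LaurentSeries B) +
          sp B 1 * (y i * (σ (α i) : LaurentSeries B)) := by
      rw [add_mul, hC, mul_assoc]
    rw [← h3, ← hsplit i]
  have h2 : F.pr (σ (∑ i, (k i).coeff 0 • α i)) = 0 := by
    rw [F.ker]
    refine ⟨_, ?_, h1⟩
    exact F.Lam.neg_mem (F.Lam.sum_mem fun i _ => F.Lam.mul_mem (hyL i) (σ (α i)).2)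
  rw [hσ] at h2
  exact Fintype.linearIndependent_iff.1 α.linearIndependent _ h2

theorem kinj {A : Type} [CommRing A] [Algebra ℂ A] (F : Fam B A)
    (σ : A →ₐ[ℂ] F.Lam) (hσ : ∀ a, F.pr (σ a) = a) {ι κ : Type} [Fintype ι] [Fintype κ]
    (α : Module.Basis κ ℂ A) (β : Module.Basis ι ℂ B) (k : κ → LaurentSeries ℂ)
    (hk : ∀ j, ∑ i, k i * crd β (σ (α i) : LaurentSeries B) j = 0) : k = 0 := by
  classical
  have hP : ∑ i, KInj_io (k i) * (σ (α i) : LaurentSeries B) = 0 := by
    have h1 : ∀ j, crd β (∑ i, KInj_io (k i) * (σ (α i) : LaurentSeries B)) j = 0 := by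
      intro j
      rw [← hk j]
      ext n
      rw [crd_coeff, HahnSeries.coeff_sum, HahnSeries.coeff_sum, map_sum,
        Finsupp.finsetSum_apply]
      refine Finset.sum_congr rfl fun i _ => ?_
      rw [← crd_coeff, KInj_crd_io]
    ext n
    apply β.repr.injective
    ext j
    rw [← crd_coeff, h1 j, HahnSeries.coeff_zero, HahnSeries.coeff_zero, map_zero,
      Finsupp.zero_apply]
  by_contra hne
  obtain ⟨i1, hi1⟩ := Function.ne_iff.1 hne
  obtain ⟨i0, hi0, hmin⟩ := Finset.exists_min_image (Finset.univ.filter fun i => k i ≠ 0)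
    (fun i => (k i).order) ⟨i1, by simpa using hi1⟩
  rw [Finset.mem_filter] at hi0
  set d := (k i0).order with hd
  have hcoeff : ∀ i l, ((HahnSeries.single (-d) 1 : LaurentSeries ℂ) * k i).coeff l =
      (k i).coeff (l + d) := by
    intro i l
    rw [HahnSeries.coeff_single_mul, one_mul, sub_neg_eq_add]
  have h2 := KInj_zero F σ hσ α (fun i => (HahnSeries.single (-d) 1 : LaurentSeries ℂ) * k i)
    (by
      intro i l hl
      rw [hcoeff]
      by_cases hki : k i = 0
      · rw [hki, HahnSeries.coeff_zero]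
      · apply HahnSeries.coeff_eq_zero_of_lt_order
        have := hmin i (by simpa using hki)
        have h3 : d ≤ (k i).order := this
        omega)
    (by
      have h3 : ∀ i, KInj_io (B := B) ((HahnSeries.single (-d) 1 : LaurentSeries ℂ) * k i) =
          sp B (-d) * KInj_io (k i) := by
        intro i
        ext l
        rw [KInj_io_coeff, hcoeff, coeff_sp_mul, KInj_io_coeff, sub_neg_eq_add]
      calc ∑ i, KInj_io ((HahnSeries.single (-d) 1 : LaurentSeries ℂ) * k i) *
            (σ (α i) : LaurentSeries B)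
          = ∑ i, sp B (-d) * (KInj_io (k i) * (σ (α i) : LaurentSeries B)) := by
            refine Finset.sum_congr rfl fun i _ => ?_
            rw [h3, mul_assoc]
        _ = 0 := by rw [← Finset.mul_sum, hP, mul_zero])
    i0
  rw [hcoeff, zero_add] at h2
  exact hi0.2 (HahnSeries.coeff_order_eq_zero.1 h2)

end Pool.Agent.W_90188c_h48
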