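import Pool.Agent.W_MP_90188c_ag.NumE

/-!
# Derivations of `A = P/J` and of `R = P/I` with values in `A`

`J = I ⊔ (f)`, `f ∉ 𝔫 ^ 2`, `I ⊆ 𝔫 ^ 2`.
`der_le`: PROOF: a derivation `δ` of `P ⧸ J` gives the derivation `g ↦ δ (mk g)` of `P` with values in
`P ⧸ J` which kills `J`; injective as `mk` is surjective.
`soc_add`: PROOF: the evaluation `ev : VV I J → P ⧸ J`, `D ↦ D f`, is linear over `ℂ`; its kernel is
`VV J J` (as `J = I ⊔ (f)`, `D (a + y f) = D a + y D f + f D y`, and `f • (anything) = 0` in `P/J`).  Its range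
contains the socle: `f ∉ 𝔫 ^ 2`, `f` without constant term, so `lin i0 f ≠ 0` for some `i0`; for `σ` in
the socle the derivation `socMap I J hI (Pi.single i0 ((lin i0 f)⁻¹ • σ))` of `NumB` maps `g` to
`lin i0 g • (lin i0 f)⁻¹ • σ` (see `socMap_apply`), so `f` to `σ`.  Rank-nullity (all spaces are finite
dimensional: `finite_VV`, `finite_A`).
-/

set_option autoImplicit false

namespace Pool.Agent.W_90188c_h48

open MvPowerSeries Pool.Agent.W_MP_90188c_ag

variable {n : ℕ}

private noncomputable def socV_pull (J : Ideal (P n)) :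
    Derivation ℂ (P n ⧸ J) (P n ⧸ J) →ₗ[ℂ] VV J J where
  toFun δ := ⟨δ.compAlgebraMap (P n), by
    intro g hg
    change δ (Ideal.Quotient.mk J g) = 0
    rw [Ideal.Quotient.eq_zero_iff_mem.2 hg, map_zero]⟩
  map_add' _ _ := rfl
  map_smul' _ _ := rfl

theorem der_le (J : Ideal (P n)) {k : ℕ} (hk : (mm n) ^ k ≤ J) :
    Module.finrank ℂ (Derivation ℂ (P n ⧸ J) (P n ⧸ J)) ≤ Module.finrank ℂ (VV J J) := by
  have := finite_VV J hk
  refine LinearMap.finrank_le_finrank_of_injective (f := socV_pull J) ?_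
  intro δ δ' h
  ext x
  obtain ⟨g, rfl⟩ := Ideal.Quotient.mk_surjective x
  exact congrArg (fun D : VV J J => (D : Derivation ℂ (P n) (P n ⧸ J)) g) h

private noncomputable def socV_ev (I J : Ideal (P n)) (f : P n) : VV I J →ₗ[ℂ] P n ⧸ J where
  toFun D := (D : Derivation ℂ (P n) (P n ⧸ J)) f
  map_add' _ _ := rfl
  map_smul' _ _ := rfl

private theorem socV_lin (f : P n) (hf0 : constantCoeff f = 0) (hf2 : f ∉ (mm n) ^ 2) :
    ∃ i0, lin i0 f ≠ 0 := by
  by_contra hcon
  push Not at hcon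
  apply hf2
  apply mem_mm_pow
  intro d hd
  by_cases h0 : d.degree = 0
  · have : d = 0 := (Finsupp.degree_eq_zero_iff d).mp h0
    subst this
    simpa using hf0
  · have h1 : d.degree = 1 := by omega
    obtain ⟨i, hi⟩ : ∃ i, d = Finsupp.single i 1 := by
      have hne : d ≠ 0 := by
        rintro rfl
        simp at h1
      obtain ⟨i, hi⟩ := Finsupp.ne_iff.1 hne
      refine ⟨i, ?_⟩
      have hi' : 1 ≤ d i := Nat.one_le_iff_ne_zero.2 (by simpa using hi)
      have hle : Finsupp.single i 1 ≤ d := by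
        rw [Finsupp.single_le_iff]
        exact hi'
      have hadd : d - Finsupp.single i 1 + Finsupp.single i 1 = d := tsub_add_cancel_of_le hle
      have hdeg := congrArg Finsupp.degree hadd
      rw [map_add, Finsupp.degree_single, h1] at hdeg
      have hz : (d - Finsupp.single i 1).degree = 0 := by omega
      rw [(Finsupp.degree_eq_zero_iff _).mp hz, zero_add] at hadd
      exact hadd.symm
    rw [hi]
    exact hcon i

private theorem socV_abs {X Y W S : Type} [AddCommGroup X] [Module ℂ X] [Module.Finite ℂ X]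
    [AddCommGroup Y] [Module ℂ Y] [AddCommGroup W] [Module ℂ W] [AddCommGroup S] [Module ℂ S]
    (ev : X →ₗ[ℂ] Y) (j : W →ₗ[ℂ] X) (hj : Function.Injective j) (hker : ∀ w, ev (j w) = 0)
    (i : S →ₗ[ℂ] Y) (hi : Function.Injective i) (hr : ∀ s, ∃ x, ev x = i s) :
    Module.finrank ℂ W + Module.finrank ℂ S ≤ Module.finrank ℂ X := by
  have hrn := LinearMap.finrank_range_add_finrank_ker ev
  have h1 : Module.finrank ℂ W ≤ Module.finrank ℂ (LinearMap.ker ev) := by
    refine LinearMap.finrank_le_finrank_of_injective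
      (f := LinearMap.codRestrict (LinearMap.ker ev) j (fun w => hker w)) ?_
    intro w w' h
    exact hj (congrArg Subtype.val h)
  have h2 : Module.finrank ℂ S ≤ Module.finrank ℂ (LinearMap.range ev) := by
    refine LinearMap.finrank_le_finrank_of_injective
      (f := LinearMap.codRestrict (LinearMap.range ev) i (fun s => hr s)) ?_
    intro s s' h
    exact hi (congrArg Subtype.val h)
  omega

private noncomputable def socV_j (I J : Ideal (P n)) (hIJ : I ≤ J) : VV J J →ₗ[ℂ] VV I J where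
  toFun D := ⟨(D : Derivation ℂ (P n) (P n ⧸ J)), fun g hg => D.2 g (hIJ hg)⟩
  map_add' _ _ := rfl
  map_smul' _ _ := rfl

theorem soc_add (I : Ideal (P n)) (hI : I ≤ (mm n) ^ 2) (f : P n) (hf0 : constantCoeff f = 0)
    (hf2 : f ∉ (mm n) ^ 2) {k : ℕ} (hk : (mm n) ^ k ≤ I ⊔ Ideal.span {f}) :
    Module.finrank ℂ (VV (I ⊔ Ideal.span {f}) (I ⊔ Ideal.span {f})) +
        Module.finrank ℂ (soc (I ⊔ Ideal.span {f})) ≤
      Module.finrank ℂ (VV I (I ⊔ Ideal.span {f})) := by
  classical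
  obtain ⟨i0, hi0⟩ := socV_lin f hf0 hf2
  have hfin := finite_VV I hk
  have hIJ : I ≤ I ⊔ Ideal.span {f} := le_sup_left
  have hfJ : f ∈ I ⊔ Ideal.span {f} :=
    (le_sup_right : Ideal.span {f} ≤ I ⊔ Ideal.span {f}) (Ideal.mem_span_singleton_self f)
  refine socV_abs (X := VV I (I ⊔ Ideal.span {f})) (Y := P n ⧸ (I ⊔ Ideal.span {f}))
    (W := VV (I ⊔ Ideal.span {f}) (I ⊔ Ideal.span {f})) (S := soc (I ⊔ Ideal.span {f}))
    (socV_ev I (I ⊔ Ideal.span {f}) f) (socV_j I (I ⊔ Ideal.span {f}) hIJ) ?_ ?_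
    ((soc (I ⊔ Ideal.span {f})).subtype.restrictScalars ℂ) ?_ ?_
  · intro D D' h
    apply Subtype.ext
    exact congrArg (fun E : VV I (I ⊔ Ideal.span {f}) =>
      (E : Derivation ℂ (P n) (P n ⧸ (I ⊔ Ideal.span {f})))) h
  · intro D
    exact D.2 f hfJ
  · exact Submodule.subtype_injective _
  · intro σ
    refine ⟨socMap I (I ⊔ Ideal.span {f}) hI (Pi.single i0 ((lin i0 f)⁻¹ • σ)), ?_⟩
    change (socMap I (I ⊔ Ideal.span {f}) hI (Pi.single i0 ((lin i0 f)⁻¹ • σ)) :
      Derivation ℂ (P n) (P n ⧸ (I ⊔ Ideal.span {f}))) f = σ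
    rw [socMap_apply, Finset.sum_eq_single i0]
    · rw [Pi.single_eq_same]
      change lin i0 f • ((lin i0 f)⁻¹ • (σ : P n ⧸ (I ⊔ Ideal.span {f}))) = σ
      rw [smul_smul, mul_inv_cancel₀ hi0, one_smul]
    · intro i _ hi
      rw [Pi.single_eq_of_ne hi]
      change lin i f • (0 : P n ⧸ (I ⊔ Ideal.span {f})) = 0
      rw [smul_zero]
    · intro h
      exact absurd (Finset.mem_univ _) h

end Pool.Agent.W_90188c_h48
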