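import Pool.Agent.W_90188c_h48.IsoS
import Pool.Agent.W_90188c_h48.FlowE
import Pool.Agent.W_90188c_h48.SocV

/-!
# Main theorems
-/

set_option autoImplicit false

attribute [-instance] HahnSeries.powerSeriesAlgebra

namespace Pool.Agent.W_90188c_h48

open MvPowerSeries Pool.Agent.W_MP_90188c_ag

theorem jump {A B : Type} [CommRing A] [Algebra ℂ A] [Module.Finite ℂ A] [CommRing B]
    [Algebra ℂ B] [Module.Finite ℂ B] (h : Degenerates B A) (hne : IsEmpty (A ≃ₐ[ℂ] B)) :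
    Module.finrank ℂ (Derivation ℂ B B) + 1 ≤ Module.finrank ℂ (Derivation ℂ A A) := by
  obtain ⟨F⟩ := fam_of_degenerates h
  rcases subsingleton_or_nontrivial B with hB | hB
  · exfalso
    have h1 : (1 : F.Lam) = 0 := Subtype.ext (HahnSeries.ext (funext fun k =>
      Subsingleton.elim _ _))
    have h2 : (1 : A) = 0 := by rw [← map_one F.pr, h1, map_zero]
    have : Subsingleton A := subsingleton_of_zero_eq_one h2.symm
    exact hne.false (AlgEquiv.ofBijective (⟨⟨⟨⟨fun _ => 0, Subsingleton.elim _ _⟩,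
      fun _ _ => Subsingleton.elim _ _⟩, Subsingleton.elim _ _, fun _ _ => Subsingleton.elim _ _⟩,
      fun _ => Subsingleton.elim _ _⟩ : A →ₐ[ℂ] B)
      ⟨fun _ _ _ => Subsingleton.elim _ _, fun _ => ⟨0, Subsingleton.elim _ _⟩⟩)
  · by_contra hcon
    have h1 : ¬ ∀ Θ ∈ F.LD, ∃ y ∈ F.Lam, Θ (sp B 1) = sp B 1 * y := fun h => hcon (lat_le F h)
    push Not at h1
    obtain ⟨Θ, hΘ, h2⟩ := h1
    obtain ⟨E, hE, hE1⟩ := exists_nabla F Θ hΘ h2
    obtain ⟨σ, hσ⟩ := exists_section F E hE hE1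
    obtain ⟨φ⟩ := iso_of_section F σ hσ
    exact hne.false φ

theorem main {n : ℕ} (I : Ideal (P n)) (hI : I ≤ (mm n) ^ 2) (hrad : I.IsRadical)
    (hdim : ringKrullDim (P n ⧸ I) = 1) (f : P n) (hf0 : constantCoeff f = 0)
    (hf2 : f ∉ (mm n) ^ 2) (hreg : ∀ g, f * g ∈ I → g ∈ I)
    (B : Type) [CommRing B] [Algebra ℂ B] [Module.Finite ℂ B]
    (hB : Degenerates B (P n ⧸ (I ⊔ Ideal.span {f})))
    (hne : IsEmpty ((P n ⧸ (I ⊔ Ideal.span {f})) ≃ₐ[ℂ] B))
    (hd : Module.finrank ℂ (P n ⧸ (I ⊔ Ideal.span {f})) ≤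
      Module.finrank ℂ (Derivation ℂ B B) + Module.finrank ℂ (soc (I ⊔ Ideal.span {f}))) :
    ¬ Rig I := by
  intro hrig
  obtain ⟨_, _, k, hk⟩ := artin_facts I hdim f hf0 hreg
  have hfin := finite_A hk
  have h1 := jump hB hne
  have h2 := der_le (I ⊔ Ideal.span {f}) hk
  have h3 := soc_add I hI f hf0 hf2 hk
  have h4 := master_finrank I hrad hdim f hf0 hreg hrig
  omega

end Pool.Agent.W_90188c_h48
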