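import Pool.Agent.W_90188c_h48.DerT

/-!
# A derivation of the family over `d/ds`

`scalar_mem`: power series in `s` with scalar coefficients are in `Λ`.
PROOF: `∑_{k < N} c_k s ^ k ∈ Λ` and the rest has no coefficient below `N`.

`exists_nabla`.  PROOF.  Let `a = Θ s ∈ Λ`, a Laurent series with scalar coefficients, not in `s Λ`.
(1) `a.coeff k = 0` for `k < 0`: otherwise let `d < 0` be the least index with `a.coeff d ≠ 0`
(order of the Hahn series); for every `r`, `(a ^ r).coeff (r d) = (a.coeff d) ^ r ≠ 0` (it is the image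
of a nonzero complex number; `HahnSeries.coeff_mul_order_add_order`, or induction), but `a ^ r ∈ Λ` and
`r d < -N` for large `r`, a contradiction with `F.up`.
(2) `a.coeff 0 ≠ 0`: otherwise `a = s y` with `y` a power series with scalar coefficients, `y ∈ Λ`
by `scalar_mem`, a contradiction.
(3) so `a` is the image of a power series `p` over `ℂ` with `constantCoeff p ≠ 0` under the ring
homomorphism `ι = (HahnSeries.ofPowerSeries ℤ B).comp (PowerSeries.map (algebraMap ℂ B))`; put
`u = ι p⁻¹ ∈ Λ`, `u a = 1`, `∇ = u • Θ`.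
-/

set_option autoImplicit false

attribute [-instance] HahnSeries.powerSeriesAlgebra

namespace Pool.Agent.W_90188c_h48

variable {B : Type} [CommRing B] [Algebra ℂ B]

/-- power series with scalar coefficients -/
private noncomputable def UnitN_io (B : Type) [CommRing B] [Algebra ℂ B] :
    PowerSeries ℂ →+* LaurentSeries B :=
  (HahnSeries.ofPowerSeries ℤ B).comp (PowerSeries.map (algebraMap ℂ B))

private theorem UnitN_io_coeff (p : PowerSeries ℂ) (k : ℤ) :
    (UnitN_io B p).coeff k =
      if k < 0 then 0 else algebraMap ℂ B (PowerSeries.coeff k.natAbs p) := by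
  have h := PowerSeries.coeff_coe (PowerSeries.map (algebraMap ℂ B) p) k
  rw [PowerSeries.coeff_map] at h
  exact h

private theorem UnitN_exists (x : LaurentSeries B) (h0 : ∀ k < 0, x.coeff k = 0)
    (hx : ∀ k, x.coeff k ∈ Set.range (algebraMap ℂ B)) : ∃ p, UnitN_io B p = x := by
  choose c hc using hx
  refine ⟨PowerSeries.mk (fun n => c n), ?_⟩
  ext k
  rw [UnitN_io_coeff]
  by_cases hk : k < 0
  · rw [if_pos hk, h0 k hk]
  · rw [if_neg hk, PowerSeries.coeff_mk, Int.natAbs_of_nonneg (not_lt.1 hk), hc]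

theorem scalar_mem {A : Type} [CommRing A] [Algebra ℂ A] (F : Fam B A) (x : LaurentSeries B)
    (h0 : ∀ k < 0, x.coeff k = 0) (hx : ∀ k, x.coeff k ∈ Set.range (algebraMap ℂ B)) :
    x ∈ F.Lam := by
  choose c hc using hx
  have hy : ∑ k ∈ Finset.range F.N, c k • sp B k ∈ F.Lam :=
    F.Lam.sum_mem fun k _ => F.Lam.smul_mem (F.sp_mem k) _
  have hyc : ∀ l : ℤ, (∑ k ∈ Finset.range F.N, c k • sp B k).coeff l =
      ∑ k ∈ Finset.range F.N, if l = (k : ℤ) then algebraMap ℂ B (c l) else 0 := by
    intro l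
    rw [HahnSeries.coeff_sum]
    refine Finset.sum_congr rfl fun k _ => ?_
    rw [HahnSeries.coeff_smul, coeff_sp]
    by_cases hl : l = (k : ℤ)
    · rw [if_pos hl, if_pos hl, Algebra.algebraMap_eq_smul_one, hl]
    · rw [if_neg hl, if_neg hl, smul_zero]
  have h1 : x - ∑ k ∈ Finset.range F.N, c k • sp B k ∈ F.Lam := by
    apply F.low
    intro k hk
    rw [HahnSeries.coeff_sub, hyc, sub_eq_zero]
    by_cases hk0 : k < 0
    · rw [h0 k hk0]
      symm
      refine Finset.sum_eq_zero fun j _ => if_neg ?_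
      omega
    · rw [Finset.sum_eq_single k.toNat]
      · rw [if_pos (Int.toNat_of_nonneg (not_lt.1 hk0)).symm, hc]
      · intro j _ hj
        refine if_neg fun h => hj ?_
        omega
      · intro h
        exfalso
        apply h
        rw [Finset.mem_range]
        omega
  have h2 := F.Lam.add_mem h1 hy
  rwa [sub_add_cancel] at h2

theorem exists_nabla {A : Type} [CommRing A] [Algebra ℂ A] [Nontrivial B] (F : Fam B A)
    (Θ : Derivation ℂ (LaurentSeries B) (LaurentSeries B)) (hΘ : Θ ∈ F.LD)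
    (h : ∀ y ∈ F.Lam, Θ (sp B 1) ≠ sp B 1 * y) :
    ∃ E : Derivation ℂ (LaurentSeries B) (LaurentSeries B),
      (∀ x ∈ F.Lam, E x ∈ F.Lam) ∧ E (sp B 1) = 1 := by
  obtain ⟨hΘ1, hΘ2⟩ := hΘ
  have hs1 : sp B 1 ∈ F.Lam := by
    have := F.sp_mem 1
    rwa [Nat.cast_one] at this
  obtain ⟨a, ha⟩ : ∃ a, a = Θ (sp B 1) := ⟨_, rfl⟩
  have haL : a ∈ F.Lam := by rw [ha]; exact hΘ1 _ hs1
  have hac : ∀ k, a.coeff k ∈ Set.range (algebraMap ℂ B) := by rw [ha]; exact hΘ2
  have hinj : Function.Injective (algebraMap ℂ B) := (algebraMap ℂ B).injective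
  -- (1)
  have h1 : ∀ k < 0, a.coeff k = 0 := by
    by_contra hcon
    push Not at hcon
    obtain ⟨k, hk, hk0⟩ := hcon
    obtain ⟨d, hd, hmin⟩ := Int.exists_least_of_bdd (P := fun k => a.coeff k ≠ 0)
      ⟨-(F.N : ℤ), fun z hz => by
        by_contra hlt
        exact hz (F.up a haL z (not_le.1 hlt))⟩ ⟨k, hk0⟩
    have hd0 : d < 0 := lt_of_le_of_lt (hmin k hk0) hk
    obtain ⟨p, hp⟩ := UnitN_exists (sp B (-d) * a) (fun l hl => by
      rw [coeff_sp_mul]
      by_contra hne
      have := hmin _ hne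
      omega) (fun l => by rw [coeff_sp_mul]; exact hac _)
    have ha2 : a = sp B d * UnitN_io B p := by
      rw [hp, sp_mul_sp_mul, add_neg_cancel, sp_zero, one_mul]
    have hpow : ∀ r : ℕ, a ^ r = sp B (r * d) * UnitN_io B (p ^ r) := by
      intro r
      induction r with
      | zero => rw [pow_zero, pow_zero, map_one, Nat.cast_zero, zero_mul, sp_zero, one_mul]
      | succ r ih =>
        rw [pow_succ, ih, ha2, pow_succ p, map_mul]
        have e : sp B ((r + 1 : ℕ) * d) = sp B (r * d) * sp B d := by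
          rw [sp_mul_sp]
          congr 1
          push_cast
          ring
        rw [e]
        have hp' : sp B (-d) * (sp B d * UnitN_io B p) = UnitN_io B p := by
          rw [sp_mul_sp_mul, neg_add_cancel, sp_zero, one_mul]
        ring
    have hc0 : PowerSeries.coeff 0 p ≠ 0 := by
      intro hz
      apply hd
      have e := congrArg (fun x => HahnSeries.coeff x 0) hp
      simp only [UnitN_io_coeff, coeff_sp_mul] at e
      rw [if_neg (lt_irrefl _), Int.natAbs_zero, hz, map_zero, zero_sub, neg_neg] at e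
      exact e.symm
    have hr := F.up (a ^ (F.N + 1)) (F.Lam.pow_mem haL _) (((F.N + 1 : ℕ) : ℤ) * d) (by
      push_cast
      nlinarith)
    rw [hpow, coeff_sp_mul, sub_self, UnitN_io_coeff, if_neg (lt_irrefl _), Int.natAbs_zero,
      map_eq_zero_iff _ hinj, PowerSeries.coeff_zero_eq_constantCoeff_apply, map_pow] at hr
    rw [PowerSeries.coeff_zero_eq_constantCoeff_apply] at hc0
    exact pow_ne_zero _ hc0 hr
  -- (2)
  have h2 : a.coeff 0 ≠ 0 := by
    intro hz
    refine h (sp B (-1) * a) (scalar_mem F _ (fun k hk => ?_) (fun k => ?_)) ?_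
    · rw [coeff_sp_mul]
      by_cases hk1 : k + 1 < 0
      · exact h1 _ (by omega)
      · have : k - -1 = 0 := by omega
        rw [this, hz]
    · rw [coeff_sp_mul]
      exact hac _
    · rw [← ha, sp_mul_sp_mul, add_neg_cancel, sp_zero, one_mul]
  -- (3)
  obtain ⟨p, hp⟩ := UnitN_exists a h1 hac
  have hc0 : PowerSeries.constantCoeff p ≠ 0 := by
    intro hz
    apply h2
    rw [← hp, UnitN_io_coeff, if_neg (lt_irrefl _), Int.natAbs_zero,
      PowerSeries.coeff_zero_eq_constantCoeff_apply, hz, map_zero]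
  have hu : UnitN_io B p⁻¹ ∈ F.Lam := by
    apply scalar_mem
    · intro k hk
      rw [UnitN_io_coeff, if_pos hk]
    · intro k
      rw [UnitN_io_coeff]
      split_ifs
      · exact ⟨0, map_zero _⟩
      · exact ⟨_, rfl⟩
  refine ⟨UnitN_io B p⁻¹ • Θ, fun x hx => ?_, ?_⟩
  · rw [Derivation.smul_apply, smul_eq_mul]
    exact F.Lam.mul_mem hu (hΘ1 x hx)
  · rw [Derivation.smul_apply, smul_eq_mul, ← ha, ← hp, ← map_mul,
      PowerSeries.inv_mul_cancel _ hc0, map_one]

end Pool.Agent.W_90188c_h48
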